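import Pool.Agent.Lib.MP_a1a577_an.Dunford

set_option autoImplicit false

namespace Pool.Agent.Lib.MP_a1a577_an

open Complex Metric Polynomial Filter Topology
open scoped ComplexConjugate InnerProductSpace NNReal ENNReal

lemma exists_poly_approx {f : ℂ → ℂ} (hf : DifferentiableOn ℂ f (ball 0 1)) {ρ : ℝ} (hρ0 : 0 < ρ)
    (hρ1 : ρ < 1) {ε : ℝ} (hε : 0 < ε) :
    ∃ g : ℂ[X], ∀ z ∈ sphere (0 : ℂ) ρ, ‖f z - g.eval z‖ ≤ ε := by
  -- radii ρ < R₁ < R₂ < 1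
  obtain ⟨R₁, hR₁, hR₁'⟩ := exists_between hρ1
  obtain ⟨R₂, hR₂, hR₂'⟩ := exists_between hR₁'
  have hR₂0 : 0 < R₂ := by linarith
  have hR₁0 : 0 < R₁ := by linarith
  lift R₂ to ℝ≥0 using hR₂0.le
  lift R₁ to ℝ≥0 using hR₁0.le
  have hfd : DifferentiableOn ℂ f (closedBall 0 R₂) :=
    hf.mono (closedBall_subset_ball hR₂')
  have hps := hfd.hasFPowerSeriesOnBall (by exact_mod_cast hR₂0)
  have hlt : (R₁ : ℝ≥0∞) < R₂ := by exact_mod_cast hR₂
  have htu := hps.tendstoUniformlyOn hlt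
  rw [Metric.tendstoUniformlyOn_iff] at htu
  obtain ⟨N, hN⟩ := (htu ε hε).exists
  refine ⟨∑ k ∈ Finset.range N, C ((cauchyPowerSeries f 0 R₂).coeff k) * X ^ k, ?_⟩
  intro z hz
  have hz' : ‖z‖ = ρ := by simpa using hz
  have h1 := hN z (by simpa [hz'] using hR₁)
  rw [dist_eq_norm, zero_add] at h1
  refine le_trans (le_of_eq ?_) h1.le
  congr 2
  rw [Polynomial.eval_finsetSum, FormalMultilinearSeries.partialSum]
  refine Finset.sum_congr rfl fun k _ => ?_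
  rw [FormalMultilinearSeries.apply_eq_pow_smul_coeff]
  simp only [eval_mul, eval_pow, eval_X, eval_C, smul_eq_mul]
  rw [mul_comm]

variable {A : Type*} [NormedRing A] [NormedAlgebra ℂ A] [CompleteSpace A]

lemma exists_dun_approx {f : ℂ → ℂ} (hf : DifferentiableOn ℂ f (ball 0 1)) (n : ℕ) {r ρ : ℝ}
    (hr0 : 0 ≤ r) (hr1 : r < 1) (hρ : r < ρ) (hρ1 : ρ < 1) {ε : ℝ} (hε : 0 < ε) :
    ∃ g : ℂ[X], ∀ (s : Multiset ℂ) (T : A), Killed n r s T → ‖dun ρ f T - aeval T g‖ ≤ ε := by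
  have hρ0 : 0 < ρ := lt_of_le_of_lt hr0 hρ
  set K : ℝ := ((ρ - r) ^ n)⁻¹ * (n * 2 ^ n) with hK
  have hK0 : 0 ≤ K := by
    have : 0 < (ρ - r) ^ n := pow_pos (by linarith) _
    positivity
  have hfc : ContinuousOn f (sphere 0 ρ) := by
    refine hf.continuousOn.mono ?_
    intro z hz
    have hz' : ‖z‖ = ρ := by simpa using hz
    simpa [hz'] using hρ1
  obtain ⟨g, hg⟩ := exists_poly_approx hf hρ0 hρ1 (ε := ε / (K + 1)) (by positivity)
  refine ⟨g, fun s T hT => ?_⟩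
  have h1 := hT.norm_dunford_sub_le hr0 hr1 hρ hρ1.le hfc g hg
  refine h1.trans ?_
  rw [← hK]
  calc ρ * (ε / (K + 1) * K) ≤ 1 * (ε / (K + 1) * K) := by gcongr
    _ = ε * (K / (K + 1)) := by ring
    _ ≤ ε * 1 := by
      gcongr
      rw [div_le_one (by positivity)]
      linarith
    _ = ε := mul_one _

lemma continuousOn_dun {f : ℂ → ℂ} (hf : DifferentiableOn ℂ f (ball 0 1)) (n : ℕ) {r ρ : ℝ}
    (hr0 : 0 ≤ r) (hr1 : r < 1) (hρ : r < ρ) (hρ1 : ρ < 1) :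
    ContinuousOn (dun (A := A) ρ f) {T : A | ∃ s, Killed n r s T} := by
  apply continuousOn_of_uniform_approx_of_continuousOn
  intro u hu
  obtain ⟨ε, hε, hu'⟩ := Metric.mem_uniformity_dist.1 hu
  obtain ⟨g, hg⟩ := exists_dun_approx (A := A) hf n hr0 hr1 hρ hρ1 (ε := ε / 2) (by positivity)
  refine ⟨fun T => aeval T g, ?_, ?_⟩
  · have : Continuous fun T : A => aeval T g := g.continuous_aeval
    exact this.continuousOn
  · rintro T ⟨s, hs⟩
    apply hu'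
    rw [dist_eq_norm]
    have := hg s T hs
    linarith

end Pool.Agent.Lib.MP_a1a577_an
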