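import Pool.Agent.Lib.MP_a1a577_an.Circle

set_option autoImplicit false

namespace Pool.Agent.Lib.MP_a1a577_an

open Complex Metric Polynomial Filter Topology
open scoped ComplexConjugate InnerProductSpace

variable {A : Type*} [NormedRing A] [NormedAlgebra ℂ A]

lemma norm_aeval_pp_le (hone : ‖(1 : A)‖ ≤ 1) (T : A) (hT : ‖T‖ ≤ 1) (s : Multiset ℂ)
    (hs : ∀ b ∈ s, ‖b‖ ≤ 1) : ‖aeval T (pp s)‖ ≤ 2 ^ (Multiset.card s) := by
  induction s using Multiset.induction_on with
  | empty =>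
    simp only [pp_zero, map_one, Multiset.card_zero, pow_zero]
    exact hone
  | cons b s ih =>
    have h1 := ih fun x hx => hs x (Multiset.mem_cons_of_mem hx)
    have hb := hs b (Multiset.mem_cons_self b s)
    rw [pp_cons, map_mul, Multiset.card_cons, pow_succ']
    refine (norm_mul_le _ _).trans ?_
    refine mul_le_mul ?_ h1 (norm_nonneg _) (by norm_num)
    have h2 : aeval T (X - C b) = T - b • (1 : A) := by
      simp [Algebra.algebraMap_eq_smul_one]
    rw [h2]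
    have h3 : ‖b • (1 : A)‖ ≤ 1 := by
      rw [norm_smul]
      exact mul_le_one₀ hb (norm_nonneg _) hone
    calc ‖T - b • (1 : A)‖ ≤ ‖T‖ + ‖b • (1 : A)‖ := norm_sub_le _ _
      _ ≤ 2 := by linarith

/-- Division of `p(z) - p(T)` by `z - T`. -/
lemma exists_quot (hone : ‖(1 : A)‖ ≤ 1) (T : A) (hT : ‖T‖ ≤ 1) (s : Multiset ℂ)
    (hs : ∀ b ∈ s, ‖b‖ ≤ 1) :
    ∃ Q : ℂ → (A), Differentiable ℂ Q ∧
      (∀ z, (z • (1 : A) - T) * Q z
        = (pp s).eval z • (1 : A) - aeval T (pp s)) ∧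
      (∀ z, Q z * (z • (1 : A) - T)
        = (pp s).eval z • (1 : A) - aeval T (pp s)) ∧
      ∀ z, ‖z‖ ≤ 1 → ‖Q z‖ ≤ Multiset.card s * 2 ^ (Multiset.card s) := by
  induction s using Multiset.induction_on with
  | empty =>
    refine ⟨fun _ => 0, differentiable_const _, ?_, ?_, ?_⟩
    · intro z; simp [pp_zero]
    · intro z; simp [pp_zero]
    · intro z _; simp
  | cons b s ih =>
    have hs' : ∀ x ∈ s, ‖x‖ ≤ 1 := fun x hx => hs x (Multiset.mem_cons_of_mem hx)
    obtain ⟨Q, hQd, hQ1, hQ2, hQn⟩ := ih hs'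
    have hb := hs b (Multiset.mem_cons_self b s)
    have h2 : aeval T (X - C b) = T - b • (1 : A) := by
      simp [Algebra.algebraMap_eq_smul_one]
    have hcomm : T * aeval T (pp s) = aeval T (pp s) * T := by
      have e1 : T * aeval T (pp s) = aeval T (X * pp s) := by rw [map_mul, aeval_X]
      have e2 : aeval T (pp s) * T = aeval T (pp s * X) := by rw [map_mul, aeval_X]
      rw [e1, e2, mul_comm]
    refine ⟨fun z => (z - b) • Q z + aeval T (pp s), ?_, ?_, ?_, ?_⟩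
    · exact ((differentiable_id.sub_const b).smul hQd).add_const _
    · intro z
      rw [mul_add, mul_smul_comm, hQ1 z, pp_cons, map_mul, h2]
      simp only [eval_mul, eval_sub, eval_X, eval_C]
      have e1 : (z • (1 : A) - T) * aeval T (pp s)
          = z • aeval T (pp s) - T * aeval T (pp s) := by
        rw [sub_mul, smul_mul_assoc, one_mul]
      have e2 : (T - b • (1 : A)) * aeval T (pp s)
          = T * aeval T (pp s) - b • aeval T (pp s) := by
        rw [sub_mul, smul_mul_assoc, one_mul]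
      rw [e1, e2]
      module
    · intro z
      rw [add_mul, smul_mul_assoc, hQ2 z, pp_cons, map_mul, h2]
      simp only [eval_mul, eval_sub, eval_X, eval_C]
      have e1 : aeval T (pp s) * (z • (1 : A) - T)
          = z • aeval T (pp s) - T * aeval T (pp s) := by
        rw [mul_sub, mul_smul_comm, mul_one, hcomm]
      have e2 : (T - b • (1 : A)) * aeval T (pp s)
          = T * aeval T (pp s) - b • aeval T (pp s) := by
        rw [sub_mul, smul_mul_assoc, one_mul]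
      rw [e1, e2]
      module
    · intro z hz
      have h3 := norm_aeval_pp_le hone T hT s hs'
      have h4 := hQn z hz
      have h5 : ‖z - b‖ ≤ 2 := by
        calc ‖z - b‖ ≤ ‖z‖ + ‖b‖ := norm_sub_le _ _
          _ ≤ 2 := by linarith
      rw [Multiset.card_cons]
      push_cast
      calc ‖(z - b) • Q z + aeval T (pp s)‖ ≤ ‖(z - b) • Q z‖ + ‖aeval T (pp s)‖ := norm_add_le _ _
        _ = ‖z - b‖ * ‖Q z‖ + ‖aeval T (pp s)‖ := by rw [norm_smul]
        _ ≤ 2 * (Multiset.card s * 2 ^ (Multiset.card s)) + 2 ^ (Multiset.card s) := by gcongr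
        _ ≤ ((Multiset.card s : ℝ) + 1) * 2 ^ (Multiset.card s + 1) := by
          rw [pow_succ]
          have : (0:ℝ) ≤ 2 ^ (Multiset.card s) := by positivity
          nlinarith

lemma isUnit_of_inverse {B : Type*} [Ring B] {a b : B} (h1 : a * b = 1) (h2 : b * a = 1) :
    Ring.inverse a = b := by
  have := Ring.inverse_unit (⟨a, b, h1, h2⟩ : Bˣ)
  exact this

lemma norm_pp_eval_ge (s : Multiset ℂ) {r ρ : ℝ} (hρ : r ≤ ρ) (hs : ∀ b ∈ s, ‖b‖ ≤ r) {z : ℂ}
    (hz : ‖z‖ = ρ) : (ρ - r) ^ (Multiset.card s) ≤ ‖(pp s).eval z‖ := by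
  induction s using Multiset.induction_on with
  | empty => simp [pp_zero]
  | cons b s ih =>
    have h1 := ih fun x hx => hs x (Multiset.mem_cons_of_mem hx)
    have hb := hs b (Multiset.mem_cons_self b s)
    rw [pp_cons, Multiset.card_cons, pow_succ', eval_mul, norm_mul]
    refine mul_le_mul ?_ h1 (pow_nonneg (by linarith) _) (norm_nonneg _)
    simp only [eval_sub, eval_X, eval_C]
    have := norm_sub_norm_le z b
    rw [hz] at this
    linarith

/-- The resolvent off the disc of radius `r`. -/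
lemma exists_resolvent_formula (hone : ‖(1 : A)‖ ≤ 1) (T : A) (hT : ‖T‖ ≤ 1) (s : Multiset ℂ) {r : ℝ}
    (hr1 : r < 1) (hs : ∀ b ∈ s, ‖b‖ ≤ r) (hp : aeval T (pp s) = 0) :
    ∃ Q : ℂ → (A), Differentiable ℂ Q ∧
      (∀ z : ℂ, r < ‖z‖ → resolvent T z = ((pp s).eval z)⁻¹ • Q z) ∧
      (∀ z : ℂ, r < ‖z‖ → (z • (1 : A) - T) * resolvent T z = 1) ∧
      ∀ z, ‖z‖ ≤ 1 → ‖Q z‖ ≤ Multiset.card s * 2 ^ (Multiset.card s) := by
  have hs' : ∀ b ∈ s, ‖b‖ ≤ 1 := fun b hb => (hs b hb).trans hr1.le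
  obtain ⟨Q, hQd, hQ1, hQ2, hQn⟩ := exists_quot hone T hT s hs'
  have hne : ∀ z : ℂ, r < ‖z‖ → (pp s).eval z ≠ 0 := by
    intro z hz h0
    have := norm_pp_eval_ge s hz.le hs rfl
    rw [h0, norm_zero] at this
    have h2 : 0 < (‖z‖ - r) ^ (Multiset.card s) := pow_pos (by linarith) _
    linarith
  have key : ∀ z : ℂ, r < ‖z‖ → resolvent T z = ((pp s).eval z)⁻¹ • Q z := by
    intro z hz
    unfold resolvent
    apply isUnit_of_inverse
    · rw [Algebra.algebraMap_eq_smul_one, mul_smul_comm, hQ1, hp, sub_zero, smul_smul,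
        inv_mul_cancel₀ (hne z hz), one_smul]
    · rw [Algebra.algebraMap_eq_smul_one, smul_mul_assoc, hQ2, hp, sub_zero, smul_smul,
        inv_mul_cancel₀ (hne z hz), one_smul]
  refine ⟨Q, hQd, key, ?_, hQn⟩
  intro z hz
  rw [key z hz, mul_smul_comm, hQ1, hp, sub_zero, smul_smul, inv_mul_cancel₀ (hne z hz), one_smul]

lemma differentiableAt_resolvent (hone : ‖(1 : A)‖ ≤ 1) (T : A) (hT : ‖T‖ ≤ 1) (s : Multiset ℂ) {r : ℝ}
    (hr1 : r < 1) (hs : ∀ b ∈ s, ‖b‖ ≤ r) (hp : aeval T (pp s) = 0) {z : ℂ} (hz : r < ‖z‖) :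
    DifferentiableAt ℂ (fun w => resolvent T w) z := by
  obtain ⟨Q, hQd, hQ1, -, -⟩ := exists_resolvent_formula hone T hT s hr1 hs hp
  have hne : (pp s).eval z ≠ 0 := by
    intro h0
    have := norm_pp_eval_ge s hz.le hs rfl
    rw [h0, norm_zero] at this
    have h2 : 0 < (‖z‖ - r) ^ (Multiset.card s) := pow_pos (by linarith) _
    linarith
  have h1 : DifferentiableAt ℂ (fun w => ((pp s).eval w)⁻¹ • Q w) z :=
    (((pp s).differentiable z).inv hne).smul (hQd z)
  refine h1.congr_of_eventuallyEq ?_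
  have : ∀ᶠ w in 𝓝 z, r < ‖w‖ := continuous_norm.continuousAt.eventually (lt_mem_nhds hz)
  filter_upwards [this] with w hw
  exact hQ1 w hw

lemma norm_resolvent_le (hone : ‖(1 : A)‖ ≤ 1) (T : A) (hT : ‖T‖ ≤ 1) (s : Multiset ℂ) {r ρ : ℝ}
    (hr1 : r < 1) (hρ : r < ρ) (hρ1 : ρ ≤ 1) (hs : ∀ b ∈ s, ‖b‖ ≤ r) (hp : aeval T (pp s) = 0)
    {z : ℂ} (hz : ‖z‖ = ρ) :
    ‖resolvent T z‖ ≤ ((ρ - r) ^ (Multiset.card s))⁻¹ * (Multiset.card s * 2 ^ (Multiset.card s)) := by
  obtain ⟨Q, hQd, hQ1, -, hQn⟩ := exists_resolvent_formula hone T hT s hr1 hs hp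
  rw [hQ1 z (by rw [hz]; exact hρ), norm_smul, norm_inv]
  have h1 := norm_pp_eval_ge s hρ.le hs hz
  have h2 : 0 < (ρ - r) ^ (Multiset.card s) := pow_pos (by linarith) _
  have h3 := hQn z (by rw [hz]; exact hρ1)
  gcongr

end Pool.Agent.Lib.MP_a1a577_an
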