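import Mathlib

set_option autoImplicit false

namespace Pool.Agent.Lib.MP_a1a577_an

open Complex Metric Polynomial
open scoped ComplexConjugate InnerProductSpace

/-- Average over the unit circle. -/
noncomputable def av {E : Type*} [NormedAddCommGroup E] [NormedSpace ℝ E] (F : ℂ → E) : E :=
  Real.circleAverage F 0 1

/-- The polynomial function `∏ (1 - b z)` attached to a multiset of roots. -/
noncomputable def tp (s : Multiset ℂ) (z : ℂ) : ℂ := (s.map fun b => 1 - b * z).prod

/-- The monic polynomial with given roots. -/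
noncomputable def pp (s : Multiset ℂ) : ℂ[X] := (s.map fun b => X - C b).prod

/-- The weight `1 / |∏ (1 - b z)|^2`. -/
noncomputable def wt (s : Multiset ℂ) (z : ℂ) : ℝ := (‖tp s z‖ ^ 2)⁻¹

/-- The positivity condition equivalent to `‖g(T)‖ ≤ M` for all contractions killed by `pp s`. -/
def Pos (M : ℝ) (g : ℂ[X]) (n : ℕ) (w : ℂ → ℝ) : Prop :=
  ∀ q₁ q₂ : ℂ[X], q₁.degree < n → q₂.degree < n →
    0 ≤ av (fun z => w z * (M / 2 * (‖q₁.eval z‖ ^ 2 + ‖q₂.eval z‖ ^ 2)
      - (g.eval (conj z) * (conj (q₁.eval z) * q₂.eval z)).re))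

section av

variable {E : Type*} [NormedAddCommGroup E] [NormedSpace ℝ E]

omit [NormedSpace ℝ E] in
lemma ci {F : ℂ → E} (h : ContinuousOn F (sphere 0 1)) : CircleIntegrable F 0 1 :=
  h.circleIntegrable zero_le_one

lemma av_congr {F G : ℂ → E} (h : ∀ z, ‖z‖ = 1 → F z = G z) : av F = av G := by
  apply Real.circleAverage_congr_sphere
  intro z hz
  exact h z (by simpa using hz)

lemma av_add {F G : ℂ → E} (hF : ContinuousOn F (sphere 0 1)) (hG : ContinuousOn G (sphere 0 1)) :
    av (fun z => F z + G z) = av F + av G :=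
  Real.circleAverage_fun_add (ci hF) (ci hG)

lemma av_sub {F G : ℂ → E} (hF : ContinuousOn F (sphere 0 1)) (hG : ContinuousOn G (sphere 0 1)) :
    av (fun z => F z - G z) = av F - av G :=
  Real.circleAverage_fun_sub (ci hF) (ci hG)

lemma av_sum {ι : Type*} {t : Finset ι} {F : ι → ℂ → E}
    (h : ∀ i ∈ t, ContinuousOn (F i) (sphere 0 1)) :
    av (fun z => ∑ i ∈ t, F i z) = ∑ i ∈ t, av (F i) :=
  Real.circleAverage_fun_sum fun i hi => ci (h i hi)

lemma av_re {F : ℂ → ℂ} (hF : ContinuousOn F (sphere 0 1)) :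
    av (fun z => (F z).re) = (av F).re :=
  Complex.reCLM.circleAverage_comp_comm (ci hF)

lemma av_conj {F : ℂ → ℂ} (hF : ContinuousOn F (sphere 0 1)) :
    av (fun z => conj (F z)) = conj (av F) :=
  (Complex.conjCLE : ℂ →L[ℝ] ℂ).circleAverage_comp_comm (ci hF)

lemma av_const_mul (a : ℂ) (F : ℂ → ℂ) : av (fun z => a * F z) = a * av F := by
  have := Real.circleAverage_fun_smul (a := a) (f := F) (c := (0:ℂ)) (R := 1)
  simpa [av] using this

lemma av_real_const_mul (a : ℝ) (F : ℂ → ℝ) : av (fun z => a * F z) = a * av F := by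
  have := Real.circleAverage_fun_smul (a := a) (f := F) (c := (0:ℂ)) (R := 1)
  simpa [av] using this

lemma av_analytic {F : ℂ → ℂ} (hF : DiffContOnCl ℂ F (ball 0 1)) : av F = F 0 := by
  have h : DiffContOnCl ℂ F (ball 0 |1|) := by simpa using hF
  exact h.circleAverage

lemma av_const (a : ℂ) : av (fun _ => a) = a := Real.circleAverage_const a 0 1

lemma av_nonneg {F : ℂ → ℝ} (h : ∀ z, ‖z‖ = 1 → 0 ≤ F z) : 0 ≤ av F :=
  Real.circleAverage_nonneg_of_nonneg fun z hz => h z (by simpa using hz)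

end av

section tp

lemma tp_zero' (z : ℂ) : tp 0 z = 1 := by simp [tp]

lemma tp_cons (b : ℂ) (s : Multiset ℂ) (z : ℂ) : tp (b ::ₘ s) z = (1 - b * z) * tp s z := by
  simp [tp]

lemma tp_add (s t : Multiset ℂ) (z : ℂ) : tp (s + t) z = tp s z * tp t z := by
  simp [tp]

lemma tp_replicate (k : ℕ) (b z : ℂ) : tp (Multiset.replicate k b) z = (1 - b * z) ^ k := by
  simp [tp]

lemma pp_zero : pp 0 = 1 := by simp [pp]

lemma pp_cons (b : ℂ) (s : Multiset ℂ) : pp (b ::ₘ s) = (X - C b) * pp s := by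
  simp [pp]

lemma tp_at_zero (s : Multiset ℂ) : tp s 0 = 1 := by
  simp [tp]

lemma one_sub_mul_ne_zero {b z : ℂ} (hb : ‖b‖ < 1) (hz : ‖z‖ ≤ 1) : 1 - b * z ≠ 0 := by
  intro h
  have h1 : b * z = 1 := by linear_combination -h
  have h2 : ‖b‖ * ‖z‖ = 1 := by rw [← norm_mul, h1]; simp
  nlinarith [norm_nonneg b, norm_nonneg z]

lemma tp_ne_zero {s : Multiset ℂ} (hs : ∀ b ∈ s, ‖b‖ < 1) {z : ℂ} (hz : ‖z‖ ≤ 1) : tp s z ≠ 0 := by
  unfold tp
  apply Multiset.prod_ne_zero
  intro h
  rw [Multiset.mem_map] at h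
  obtain ⟨b, hb, h0⟩ := h
  exact one_sub_mul_ne_zero (hs b hb) hz h0

lemma differentiable_tp (s : Multiset ℂ) : Differentiable ℂ (tp s) := by
  induction s using Multiset.induction_on with
  | empty =>
    have : tp (0 : Multiset ℂ) = fun _ => 1 := by ext z; exact tp_zero' z
    rw [this]; exact differentiable_const _
  | cons b s ih =>
    have : tp (b ::ₘ s) = fun z => (1 - b * z) * tp s z := by ext z; exact tp_cons b s z
    rw [this]
    exact ((differentiable_const _).sub ((differentiable_const _).mul differentiable_id)).mul ih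

lemma continuous_tp (s : Multiset ℂ) : Continuous (tp s) := (differentiable_tp s).continuous

lemma wt_pos {s : Multiset ℂ} (hs : ∀ b ∈ s, ‖b‖ < 1) {z : ℂ} (hz : ‖z‖ ≤ 1) : 0 < wt s z := by
  unfold wt
  have := tp_ne_zero hs hz
  positivity

lemma continuousOn_wt {s : Multiset ℂ} (hs : ∀ b ∈ s, ‖b‖ < 1) :
    ContinuousOn (wt s) (sphere 0 1) := by
  unfold wt
  apply ContinuousOn.inv₀
  · exact ((continuous_tp s).norm.pow 2).continuousOn
  · intro z hz
    have := tp_ne_zero hs (z := z) (by simp at hz; exact hz.le)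
    positivity

lemma pp_eval_conj (s : Multiset ℂ) {z : ℂ} (hz : ‖z‖ = 1) :
    (pp s).eval (conj z) = conj z ^ (Multiset.card s) * tp s z := by
  have hzz : conj z * z = 1 := by
    rw [mul_comm, Complex.mul_conj, Complex.normSq_eq_norm_sq, hz]; simp
  induction s using Multiset.induction_on with
  | empty => simp [pp_zero, tp_zero']
  | cons b s ih =>
    rw [pp_cons, tp_cons, Polynomial.eval_mul, ih]
    simp only [Polynomial.eval_sub, Polynomial.eval_X, Polynomial.eval_C, Multiset.card_cons]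
    have : conj z - b = conj z * (1 - b * z) := by linear_combination (b) * hzz
    rw [this]; ring

end tp

end Pool.Agent.Lib.MP_a1a577_an
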