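import Pool.Agent.Lib.MP_a1a577_an.Approx

set_option autoImplicit false

namespace Pool.Agent.Lib.MP_a1a577_an

open Complex Metric Polynomial Filter Topology
open scoped ComplexConjugate InnerProductSpace NNReal ENNReal

variable {A : Type*} [NormedRing A] [NormedAlgebra ℂ A]

lemma pp_replicate (n : ℕ) (a : ℂ) : pp (Multiset.replicate n a) = (X - C a) ^ n := by
  simp [pp, Multiset.map_replicate, Multiset.prod_replicate]

lemma aeval_pp_replicate (n : ℕ) (a : ℂ) (T : A) :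
    aeval T (pp (Multiset.replicate n a)) = (T - a • (1 : A)) ^ n := by
  rw [pp_replicate, map_pow, map_sub, aeval_X, aeval_C, Algebra.algebraMap_eq_smul_one]

/-- Pairs `(a, T)` with `|a| ≤ r`, `T` a contraction and `(T - a)^n = 0`. -/
def pairs (A : Type*) [NormedRing A] [NormedAlgebra ℂ A] (n : ℕ) (r : ℝ) : Set (ℂ × A) :=
  {x | ‖x.1‖ ≤ r ∧ ‖x.2‖ ≤ 1 ∧ aeval x.2 (pp (Multiset.replicate n x.1)) = 0}

lemma isCompact_pairs [ProperSpace A] (n : ℕ) (r : ℝ) : IsCompact (pairs A n r) := by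
  have hsub : pairs A n r ⊆ closedBall (0 : ℂ) r ×ˢ closedBall (0 : A) 1 := by
    rintro ⟨a, T⟩ ⟨h1, h2, -⟩
    exact ⟨by simpa using h1, by simpa using h2⟩
  refine ((isCompact_closedBall (0 : ℂ) r).prod (isCompact_closedBall (0 : A) 1)).of_isClosed_subset
    ?_ hsub
  have e : pairs A n r = {x : ℂ × A | ‖x.1‖ ≤ r} ∩ ({x : ℂ × A | ‖x.2‖ ≤ 1} ∩
      {x : ℂ × A | (x.2 - x.1 • (1 : A)) ^ n = 0}) := by
    ext ⟨a, T⟩
    simp only [pairs, aeval_pp_replicate, Set.mem_ofPred_eq, Set.mem_inter_iff]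
  rw [e]
  refine IsClosed.inter ?_ (IsClosed.inter ?_ ?_)
  · exact isClosed_le continuous_fst.norm continuous_const
  · exact isClosed_le continuous_snd.norm continuous_const
  · exact isClosed_eq ((continuous_snd.sub (continuous_fst.smul continuous_const)).pow n)
      continuous_const

lemma isCompact_killed [ProperSpace A] (p : ℂ[X]) : IsCompact {T : A | ‖T‖ ≤ 1 ∧ aeval T p = 0} := by
  refine (isCompact_closedBall (0 : A) 1).of_isClosed_subset ?_ ?_
  · have e : {T : A | ‖T‖ ≤ 1 ∧ aeval T p = 0} = {T : A | ‖T‖ ≤ 1} ∩ {T : A | aeval T p = 0} := rfl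
    rw [e]
    refine IsClosed.inter (isClosed_le continuous_norm continuous_const) ?_
    exact isClosed_eq p.continuous_aeval continuous_const
  · rintro T ⟨h, -⟩
    simpa using h

lemma smul_one_killed (hone : ‖(1 : A)‖ ≤ 1) {a : ℂ} (ha : ‖a‖ ≤ 1) {p : ℂ[X]} (hp : p.eval a = 0) :
    ‖a • (1 : A)‖ ≤ 1 ∧ aeval (a • (1 : A)) p = 0 := by
  constructor
  · rw [norm_smul]
    exact mul_le_one₀ ha (norm_nonneg _) hone
  · rw [← Algebra.algebraMap_eq_smul_one, Polynomial.aeval_algebraMap_apply]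
    simp [hp]

/-- Factorisation of a polynomial of `P_{n,r}`. -/
lemma killed_of_mem {n : ℕ} {r : ℝ} {p : ℂ[X]} (hp : p.degree = n)
    (hr : ∀ z : ℂ, p.eval z = 0 → ‖z‖ ≤ r) (hone : ‖(1 : A)‖ ≤ 1) {T : A} (hT : ‖T‖ ≤ 1)
    (hpT : aeval T p = 0) : Killed n r p.roots T := by
  have hp0 : p ≠ 0 := by
    rintro rfl
    rw [degree_zero] at hp
    exact absurd hp (WithBot.bot_ne_coe)
  have hnd : p.natDegree = n := natDegree_eq_of_degree_eq_some hp
  have hcard : Multiset.card p.roots = p.natDegree :=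
    splits_iff_card_roots.1 (IsAlgClosed.splits p)
  have hfac := C_leadingCoeff_mul_prod_multiset_X_sub_C hcard
  refine ⟨hone, hT, by rw [hcard, hnd], ?_, ?_⟩
  · intro b hb
    exact hr b ((mem_roots hp0).1 hb)
  · have h1 : aeval T p = p.leadingCoeff • aeval T (pp p.roots) := by
      conv_lhs => rw [← hfac]
      rw [map_mul, aeval_C, Algebra.algebraMap_eq_smul_one, smul_mul_assoc, one_mul]
      rfl
    rw [h1] at hpT
    exact (smul_eq_zero.1 hpT).resolve_left (by simpa using hp0)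

lemma exists_root_of_mem {n : ℕ} (hn : 1 ≤ n) {p : ℂ[X]} (hp : p.degree = n) :
    ∃ a : ℂ, p.eval a = 0 := by
  apply IsAlgClosed.exists_root
  rw [hp]
  exact_mod_cast (by omega : n ≠ 0)

end Pool.Agent.Lib.MP_a1a577_an
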