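import Mathlib

set_option autoImplicit false

namespace Pool.Agent.Lib.MP_a1a577_an

open Complex Metric Polynomial

/-- The Riesz-Dunford functional calculus `f(T) = (2πi)⁻¹ ∮ f(z) (z - T)⁻¹ dz`, the integral being
over the circle of radius `ρ` about `0`. -/
noncomputable def dunford {H : Type*} [NormedAddCommGroup H] [InnerProductSpace ℂ H]
    (ρ : ℝ) (f : ℂ → ℂ) (T : H →L[ℂ] H) : H →L[ℂ] H :=
  (2 * Real.pi * I : ℂ)⁻¹ • ∮ z in C(0, ρ), f z • resolvent T z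

/-- `A(p)`: the contractions `T` on the Hilbert space `H` with `p(T) = 0`. -/
def contractionsKilledBy (H : Type*) [NormedAddCommGroup H] [InnerProductSpace ℂ H]
    (p : ℂ[X]) : Set (H →L[ℂ] H) :=
  {T | ‖T‖ ≤ 1 ∧ aeval T p = 0}

/-- `P_{n,r}`: the polynomials of degree `n` all of whose roots satisfy `|z| ≤ r`. -/
def rootsInDisc (n : ℕ) (r : ℝ) : Set ℂ[X] :=
  {p | p.degree = n ∧ ∀ z : ℂ, p.eval z = 0 → ‖z‖ ≤ r}

/-- The set of norms `‖f(T)‖`, for `T` in `A(p)`. -/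
def normValues (H : Type*) [NormedAddCommGroup H] [InnerProductSpace ℂ H]
    (ρ : ℝ) (f : ℂ → ℂ) (p : ℂ[X]) : Set ℝ :=
  {x | ∃ T ∈ contractionsKilledBy H p, x = ‖dunford ρ f T‖}

/-- `C(p,f)`: the supremum of `‖f(T)‖` over the contractions `T` on `H` with `p(T) = 0`. -/
noncomputable def maxNorm (H : Type*) [NormedAddCommGroup H] [InnerProductSpace ℂ H]
    (ρ : ℝ) (f : ℂ → ℂ) (p : ℂ[X]) : ℝ :=
  sSup (normValues H ρ f p)

/-- `p` is a worst polynomial for `f` in `P_{n,r}`. -/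
def IsWorst (H : Type*) [NormedAddCommGroup H] [InnerProductSpace ℂ H]
    (n : ℕ) (r ρ : ℝ) (f : ℂ → ℂ) (p : ℂ[X]) : Prop :=
  p ∈ rootsInDisc n r ∧ ∀ q ∈ rootsInDisc n r, maxNorm H ρ f q ≤ maxNorm H ρ f p

end Pool.Agent.Lib.MP_a1a577_an
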