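import Pool.Agent.Lib.MP_a1a577_an.Calculus

set_option autoImplicit false

namespace Pool.Agent.Lib.MP_a1a577_an

open Complex Metric Polynomial Filter Topology
open scoped ComplexConjugate InnerProductSpace

variable {A : Type*} [NormedRing A] [NormedAlgebra ℂ A] [CompleteSpace A]

lemma circle_mul_left (T : A) (F : ℂ → (A)) {ρ : ℝ}
    (hF : CircleIntegrable F 0 ρ) :
    (∮ z in C(0, ρ), T * F z) = T * ∮ z in C(0, ρ), F z := by
  unfold circleIntegral
  have := (ContinuousLinearMap.mul ℂ (A) T).intervalIntegral_comp_comm hF.out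
  simp only [ContinuousLinearMap.mul_apply'] at this
  rw [← this]
  congr 1
  ext θ : 1
  rw [mul_smul_comm]

/-- The common hypotheses on an operator, packed together. -/
structure Killed (n : ℕ) (r : ℝ) (s : Multiset ℂ) (T : A) : Prop where
  norm_one : ‖(1 : A)‖ ≤ 1
  norm_le : ‖T‖ ≤ 1
  card_eq : Multiset.card s = n
  roots_le : ∀ b ∈ s, ‖b‖ ≤ r
  killed : aeval T (pp s) = 0

variable {n : ℕ} {r ρ : ℝ} {s : Multiset ℂ} {T : A}

omit [CompleteSpace A] in
lemma Killed.differentiableAt (h : Killed n r s T) (hr1 : r < 1) {z : ℂ} (hz : r < ‖z‖) :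
    DifferentiableAt ℂ (fun w => resolvent T w) z :=
  differentiableAt_resolvent h.norm_one T h.norm_le s hr1 h.roots_le h.killed hz

omit [CompleteSpace A] in
lemma Killed.mul_resolvent (h : Killed n r s T) (hr1 : r < 1) {z : ℂ} (hz : r < ‖z‖) :
    z • resolvent T z = 1 + T * resolvent T z := by
  obtain ⟨Q, -, -, h3, -⟩ := exists_resolvent_formula h.norm_one T h.norm_le s hr1 h.roots_le h.killed
  have := h3 z hz
  rw [sub_mul, smul_mul_assoc, one_mul] at this
  rw [← this]; abel

omit [CompleteSpace A] in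
lemma Killed.continuousOn (h : Killed n r s T) (hr1 : r < 1) {ρ : ℝ} (hρ : r < ρ) :
    ContinuousOn (fun w => resolvent T w) (sphere (0 : ℂ) ρ) := by
  intro z hz
  have hz' : ‖z‖ = ρ := by simpa using hz
  exact (h.differentiableAt hr1 (by rw [hz']; exact hρ)).continuousAt.continuousWithinAt

omit [CompleteSpace A] in
lemma Killed.norm_resolvent_le' (h : Killed n r s T) (hr1 : r < 1) {z : ℂ} (hz : 1 < ‖z‖) :
    ‖resolvent T z‖ ≤ (‖z‖ - 1)⁻¹ := by
  have h1 := h.mul_resolvent hr1 (hr1.trans hz)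
  have h2 : ‖z‖ * ‖resolvent T z‖ ≤ 1 + ‖resolvent T z‖ := by
    calc ‖z‖ * ‖resolvent T z‖ = ‖z • resolvent T z‖ := (norm_smul _ _).symm
      _ = ‖1 + T * resolvent T z‖ := by rw [h1]
      _ ≤ ‖(1 : A)‖ + ‖T * resolvent T z‖ := norm_add_le _ _
      _ ≤ 1 + ‖T‖ * ‖resolvent T z‖ :=
        add_le_add h.norm_one (norm_mul_le _ _)
      _ ≤ 1 + 1 * ‖resolvent T z‖ := by
        have := h.norm_le
        gcongr
      _ = _ := by rw [one_mul]
  rw [← one_div, le_div_iff₀ (by linarith)]
  linarith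

lemma Killed.integral_resolvent (h : Killed n r s T) (hr0 : 0 ≤ r) (hr1 : r < 1) (hρ : r < ρ) :
    (∮ z in C(0, ρ), resolvent T z) = (2 * Real.pi * I : ℂ) • (1 : A) := by
  have hρ0 : 0 < ρ := lt_of_le_of_lt hr0 hρ
  have hinv : ∀ {z : ℂ}, z ≠ 0 → DifferentiableAt ℂ
      (fun w : ℂ => w⁻¹ • (1 : A)) z := by
    intro z hz
    exact (differentiableAt_inv hz).smul_const _
  -- the difference
  have hdiff : ∀ z : ℂ, r < ‖z‖ → DifferentiableAt ℂ
      (fun w : ℂ => resolvent T w - w⁻¹ • (1 : A)) z := by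
    intro z hz
    refine (h.differentiableAt hr1 hz).sub (hinv ?_)
    rintro rfl
    simp at hz; linarith
  have hann : ∀ R : ℝ, ρ ≤ R →
      (∮ z in C(0, R), (resolvent T z - z⁻¹ • (1 : A)))
        = ∮ z in C(0, ρ), (resolvent T z - z⁻¹ • (1 : A)) := by
    intro R hR
    apply Complex.circleIntegral_eq_of_differentiable_on_annulus_off_countable hρ0 hR
      Set.countable_empty
    · intro z hz
      have : ρ ≤ ‖z‖ := by simpa using hz.2
      exact (hdiff z (by linarith)).continuousAt.continuousWithinAt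
    · intro z hz
      have : ρ < ‖z‖ := by simpa using hz.1.2
      exact hdiff z (by linarith)
  have hsmall : ∀ R : ℝ, ρ ≤ R → 1 < R →
      ‖∮ z in C(0, ρ), (resolvent T z - z⁻¹ • (1 : A))‖ ≤ 2 * Real.pi * (R - 1)⁻¹ := by
    intro R hR hR1
    have hR0 : 0 < R := by linarith
    rw [← hann R hR]
    have := circleIntegral.norm_integral_le_of_norm_le_const (c := 0) (R := R)
      (C := R⁻¹ * (R - 1)⁻¹) (f := fun z => resolvent T z - z⁻¹ • (1 : A)) hR0.le ?_
    · refine this.trans (le_of_eq ?_)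
      field_simp
    · intro z hz
      have hz' : ‖z‖ = R := by simpa using hz
      have hz0 : z ≠ 0 := by
        rintro rfl
        simp at hz'; linarith
      have h1 := h.mul_resolvent hr1 (z := z) (by rw [hz']; linarith)
      have h2 : resolvent T z - z⁻¹ • (1 : A) = z⁻¹ • (T * resolvent T z) := by
        have h3 : T * resolvent T z = z • resolvent T z - 1 := by rw [h1]; abel
        rw [h3, smul_sub, smul_smul, inv_mul_cancel₀ hz0, one_smul]
      rw [h2, norm_smul, norm_inv, hz']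
      have h4 := h.norm_resolvent_le' hr1 (z := z) (by rw [hz']; exact hR1)
      rw [hz'] at h4
      have h5 : ‖T * resolvent T z‖ ≤ (R - 1)⁻¹ := by
        calc ‖T * resolvent T z‖ ≤ ‖T‖ * ‖resolvent T z‖ := norm_mul_le _ _
          _ ≤ 1 * (R - 1)⁻¹ := mul_le_mul h.norm_le h4 (norm_nonneg _) zero_le_one
          _ = _ := one_mul _
      gcongr
  have hzero : (∮ z in C(0, ρ), (resolvent T z - z⁻¹ • (1 : A))) = 0 := by
    rw [← norm_eq_zero]
    refine le_antisymm ?_ (norm_nonneg _)
    have hlim : Tendsto (fun R : ℝ => 2 * Real.pi * (R - 1)⁻¹) atTop (𝓝 0) := by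
      have : Tendsto (fun R : ℝ => (R - 1)⁻¹) atTop (𝓝 0) :=
        tendsto_inv_atTop_zero.comp (tendsto_atTop_add_const_right _ _ tendsto_id)
      simpa using this.const_mul (2 * Real.pi)
    refine ge_of_tendsto hlim ?_
    filter_upwards [eventually_ge_atTop ρ, eventually_gt_atTop 1] with R h1 h2
    exact hsmall R h1 h2
  have hint1 : CircleIntegrable (fun z => resolvent T z) 0 ρ :=
    (h.continuousOn hr1 hρ).circleIntegrable hρ0.le
  have hint2 : CircleIntegrable (fun z : ℂ => z⁻¹ • (1 : A)) 0 ρ := by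
    apply ContinuousOn.circleIntegrable hρ0.le
    intro z hz
    have hz0 : z ≠ 0 := by
      rintro rfl
      simp at hz; linarith
    exact (hinv hz0).continuousAt.continuousWithinAt
  rw [circleIntegral.integral_sub hint1 hint2, sub_eq_zero] at hzero
  rw [hzero, circleIntegral.integral_smul_const]
  congr 1
  have := circleIntegral.integral_sub_center_inv (0 : ℂ) hρ0.ne'
  simpa using this

omit [CompleteSpace A] in
lemma Killed.continuousOn_smul (h : Killed n r s T) (hr1 : r < 1) (hρ : r < ρ) {f : ℂ → ℂ}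
    (hf : ContinuousOn f (sphere 0 ρ)) :
    ContinuousOn (fun z => f z • resolvent T z) (sphere 0 ρ) :=
  hf.smul (h.continuousOn hr1 hρ)

lemma Killed.dunford_pow (h : Killed n r s T) (hr0 : 0 ≤ r) (hr1 : r < 1) (hρ : r < ρ) (k : ℕ) :
    (∮ z in C(0, ρ), (z ^ k : ℂ) • resolvent T z) = (2 * Real.pi * I : ℂ) • T ^ k := by
  have hρ0 : 0 < ρ := lt_of_le_of_lt hr0 hρ
  induction k with
  | zero => simpa using h.integral_resolvent hr0 hr1 hρ
  | succ k ih =>
    have h1 : (∮ z in C(0, ρ), (z ^ (k+1) : ℂ) • resolvent T z)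
        = ∮ z in C(0, ρ), ((z ^ k : ℂ) • (1 : A) + T * ((z ^ k : ℂ) • resolvent T z)) := by
      apply circleIntegral.integral_congr hρ0.le
      intro z hz
      have hz' : ‖z‖ = ρ := by simpa using hz
      have h2 := h.mul_resolvent hr1 (z := z) (by rw [hz']; exact hρ)
      simp only
      rw [pow_succ, mul_smul, h2, smul_add, mul_smul_comm]
    have hc : ContinuousOn (fun z : ℂ => (z ^ k : ℂ) • resolvent T z) (sphere 0 ρ) :=
      h.continuousOn_smul hr1 hρ (continuous_pow k).continuousOn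
    have hint1 : CircleIntegrable (fun z : ℂ => (z ^ k : ℂ) • (1 : A)) 0 ρ := by
      apply ContinuousOn.circleIntegrable hρ0.le
      exact ((continuous_pow k).smul continuous_const).continuousOn
    have hint2 : CircleIntegrable (fun z : ℂ => T * ((z ^ k : ℂ) • resolvent T z)) 0 ρ := by
      apply ContinuousOn.circleIntegrable hρ0.le
      exact continuousOn_const.mul hc
    rw [h1, circleIntegral.integral_add hint1 hint2, circle_mul_left T _ (hc.circleIntegrable hρ0.le),
      ih, circleIntegral.integral_smul_const]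
    have h3 : (∮ z in C(0, ρ), (z ^ k : ℂ)) = 0 := by
      have := circleIntegral.integral_sub_zpow_of_ne (n := (k : ℤ)) (by omega) (0 : ℂ) 0 ρ
      simpa using this
    rw [h3, zero_smul, zero_add, mul_smul_comm, pow_succ']

/-- The functional calculus in a general Banach algebra. -/
noncomputable def dun (ρ : ℝ) (f : ℂ → ℂ) (T : A) : A :=
  (2 * Real.pi * I : ℂ)⁻¹ • ∮ z in C(0, ρ), f z • resolvent T z

lemma two_pi_I_ne : (2 * Real.pi * I : ℂ) ≠ 0 := by
  simp [Real.pi_ne_zero]

/-- On polynomials the functional calculus is evaluation. -/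
lemma Killed.dunford_poly (h : Killed n r s T) (hr0 : 0 ≤ r) (hr1 : r < 1) (hρ : r < ρ) (g : ℂ[X]) :
    dun ρ (fun z => g.eval z) T = aeval T g := by
  have hρ0 : 0 < ρ := lt_of_le_of_lt hr0 hρ
  have h1 : (∮ z in C(0, ρ), g.eval z • resolvent T z)
      = ∮ z in C(0, ρ), ∑ i ∈ Finset.range (g.natDegree + 1),
          g.coeff i • ((z ^ i : ℂ) • resolvent T z) := by
    apply circleIntegral.integral_congr hρ0.le
    intro z _
    simp only
    rw [Polynomial.eval_eq_sum_range, Finset.sum_smul]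
    refine Finset.sum_congr rfl fun i _ => ?_
    rw [smul_smul]
  unfold dun
  rw [h1, circleIntegral.integral_fun_sum, Finset.smul_sum, Polynomial.aeval_eq_sum_range]
  · refine Finset.sum_congr rfl fun i _ => ?_
    rw [circleIntegral.integral_smul, h.dunford_pow hr0 hr1 hρ, smul_smul, smul_smul]
    congr 1
    field_simp [two_pi_I_ne]
  · intro i _
    apply ContinuousOn.circleIntegrable hρ0.le
    exact (h.continuousOn_smul hr1 hρ (continuous_pow i).continuousOn).const_smul _

/-- Approximation. -/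
lemma Killed.norm_dunford_sub_le (h : Killed n r s T) (hr0 : 0 ≤ r) (hr1 : r < 1) (hρ : r < ρ)
    (hρ1 : ρ ≤ 1) {f : ℂ → ℂ} (hf : ContinuousOn f (sphere 0 ρ)) (g : ℂ[X]) {ε : ℝ}
    (hg : ∀ z ∈ sphere (0 : ℂ) ρ, ‖f z - g.eval z‖ ≤ ε) :
    ‖dun ρ f T - aeval T g‖ ≤ ρ * (ε * (((ρ - r) ^ n)⁻¹ * (n * 2 ^ n))) := by
  have hρ0 : 0 < ρ := lt_of_le_of_lt hr0 hρ
  rw [← h.dunford_poly hr0 hr1 hρ g]
  unfold dun
  rw [← smul_sub, ← circleIntegral.integral_sub]
  · apply circleIntegral.norm_two_pi_i_inv_smul_integral_le_of_norm_le_const hρ0.le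
    intro z hz
    have hz' : ‖z‖ = ρ := by simpa using hz
    rw [← sub_smul, norm_smul]
    have h1 := norm_resolvent_le h.norm_one T h.norm_le s hr1 hρ hρ1 h.roots_le h.killed hz'
    rw [h.card_eq] at h1
    have h2 := hg z hz
    have h3 : 0 ≤ ε := (norm_nonneg _).trans h2
    gcongr
  · exact (h.continuousOn_smul hr1 hρ hf).circleIntegrable hρ0.le
  · exact (h.continuousOn_smul hr1 hρ g.continuous.continuousOn).circleIntegrable hρ0.le

end Pool.Agent.Lib.MP_a1a577_an
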