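import Pool.Agent.Lib.MP_a1a577_an.Merge

set_option autoImplicit false

namespace Pool.Agent.Lib.MP_a1a577_an

open Complex Metric Polynomial
open scoped ComplexConjugate InnerProductSpace

lemma rotate_integral (G : ℂ → ℝ) (ρ η : ℝ) :
    ∫ θ in (0:ℝ)..2 * Real.pi, G (circleMap 0 ρ (θ + η))
      = ∫ θ in (0:ℝ)..2 * Real.pi, G (circleMap 0 ρ θ) := by
  have h := Real.circleAverage_eq_integral_add (f := G) (c := 0) (R := ρ) η
  rw [Real.circleAverage_def] at h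
  have hpi : (2 * Real.pi)⁻¹ ≠ 0 := by positivity
  rw [smul_eq_mul, smul_eq_mul] at h
  exact (mul_left_cancel₀ hpi h).symm

lemma circleMap_mul_unit (ρ φ : ℝ) {u : ℂ} (hu : ‖u‖ = 1) :
    circleMap 0 ρ φ * u = circleMap 0 ρ (φ + Complex.arg u) := by
  have h := Complex.norm_mul_exp_arg_mul_I u
  rw [hu, Complex.ofReal_one, one_mul] at h
  conv_lhs => rw [← h]
  simp only [circleMap, zero_add]
  rw [mul_assoc, ← Complex.exp_add]
  congr 2
  push_cast
  ring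

theorem pos_circle {c : ℂ} {r : ℝ} (hr1 : r < 1) (hc : ‖c‖ < r) (n : ℕ) :
    ∃ e > 0, ∃ κ > 0, ∀ (M δ : ℝ) (g : ℂ[X]), 0 ≤ δ →
      (∀ a : ℂ, ‖a‖ ≤ r → Pos M g n (wt (Multiset.replicate n a))) →
      (∀ a : ℂ, ‖a‖ ≤ r → ‖c‖ ^ 2 + e ≤ ‖a‖ ^ 2 → Pos (M - δ) g n (wt (Multiset.replicate n a))) →
      Pos (M - δ * κ) g n (wt (Multiset.replicate n c)) := by
  have hc0 : 0 ≤ ‖c‖ := norm_nonneg c
  have hc1 : ‖c‖ < 1 := by linarith
  set ρ : ℝ := (r - ‖c‖) / 2 with hρ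
  have hρ0 : 0 < ρ := by rw [hρ]; linarith
  have hρ1 : ρ < 1 := by rw [hρ]; linarith
  set τ : ℝ := Complex.arg c with hτ
  set ζ : ℝ → ℂ := fun φ => circleMap 0 ρ (φ + τ) with hζ
  have hζn : ∀ φ, ‖ζ φ‖ = ρ := by
    intro φ; simp [hζ, abs_of_pos hρ0]
  have hζc : Continuous ζ := (continuous_circleMap 0 ρ).comp (continuous_id.add continuous_const)
  set G : ℂ → ℝ := fun w => ((‖1 - w‖ ^ 2) ^ n)⁻¹ with hG
  set K : ℝ := ∫ θ in (0:ℝ)..2 * Real.pi, G (circleMap 0 ρ θ) with hK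
  -- geometry
  have hden : ∀ φ, 1 - ‖c‖ ≤ ‖1 + conj c * ζ φ‖ := by
    intro φ
    have h1 : ‖conj c * ζ φ‖ ≤ ‖c‖ := by
      rw [norm_mul, RCLike.norm_conj, hζn]; nlinarith
    have h2 : ‖(1:ℂ)‖ - ‖conj c * ζ φ‖ ≤ ‖1 + conj c * ζ φ‖ := by
      have := norm_sub_norm_le (1:ℂ) (-(conj c * ζ φ))
      rw [norm_neg, sub_neg_eq_add] at this
      exact this
    rw [norm_one] at h2
    linarith
  have hden0 : ∀ φ, 1 + conj c * ζ φ ≠ 0 := by
    intro φ h0
    have := hden φ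
    rw [h0, norm_zero] at this
    linarith
  set a : ℝ → ℂ := fun φ => (c + ζ φ) / (1 + conj c * ζ φ) with ha
  have ha_sub : ∀ φ, a φ - c = ζ φ * ((1 - ‖c‖ ^ 2 : ℝ) : ℂ) / (1 + conj c * ζ φ) := by
    intro φ
    have h0 := hden0 φ
    have h1 : ((1 - ‖c‖ ^ 2 : ℝ) : ℂ) = 1 - conj c * c := by
      rw [← Complex.normSq_eq_conj_mul_self, Complex.normSq_eq_norm_sq]; push_cast; ring
    rw [h1, eq_div_iff h0]
    simp only [ha]
    rw [sub_mul, div_mul_cancel₀ _ h0]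
    ring
  have ha_norm : ∀ φ, ‖a φ‖ ≤ r := by
    intro φ
    have h1 : ‖a φ - c‖ ≤ 2 * ρ := by
      rw [ha_sub, norm_div, norm_mul, hζn, Complex.norm_real, Real.norm_of_nonneg (by nlinarith),
        div_le_iff₀ (by have := hden φ; linarith)]
      have h2 := hden φ
      have h3 : ρ * (1 - ‖c‖ ^ 2) ≤ 2 * ρ * (1 - ‖c‖) := by nlinarith [mul_pos hρ0 (sub_pos.mpr hc1)]
      have h4 : 2 * ρ * (1 - ‖c‖) ≤ 2 * ρ * ‖1 + conj c * ζ φ‖ := by
        apply mul_le_mul_of_nonneg_left h2; positivity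
      linarith
    have h2 : ‖a φ‖ ≤ ‖c‖ + ‖a φ - c‖ := by
      have := norm_add_le c (a φ - c)
      rwa [add_sub_cancel] at this
    have h3 : ‖c‖ + 2 * ρ = r := by rw [hρ]; ring
    linarith
  set e : ℝ := ρ ^ 2 * (1 - ‖c‖ ^ 4) / 4 with he
  have hc4 : 0 < 1 - ‖c‖ ^ 4 := by
    have : ‖c‖ ^ 4 < 1 := pow_lt_one₀ hc0 hc1 (by norm_num)
    linarith
  have he0 : 0 < e := by rw [he]; positivity
  have ha_far : ∀ φ ∈ Set.Icc (0:ℝ) (Real.pi / 2), ‖c‖ ^ 2 + e ≤ ‖a φ‖ ^ 2 := by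
    intro φ hφ
    have hre : 0 ≤ (conj c * ζ φ).re := by
      have h1 : conj c * ζ φ = ((‖c‖ * ρ : ℝ) : ℂ) * Complex.exp (φ * I) := by
        have h2 : conj c = ‖c‖ * Complex.exp (-(τ * I)) := by
          have h3 := Complex.norm_mul_exp_arg_mul_I c
          have h4 := congrArg (starRingEnd ℂ) h3
          rw [← h4, map_mul, Complex.conj_ofReal, ← Complex.exp_conj, map_mul, Complex.conj_ofReal,
            Complex.conj_I, hτ]
          simp
        rw [h2]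
        simp only [hζ, circleMap, zero_add]
        have h5 : Complex.exp (((φ + τ : ℝ) : ℂ) * I) = Complex.exp (φ * I) * Complex.exp (τ * I) := by
          rw [← Complex.exp_add]; congr 1; push_cast; ring
        rw [h5]
        have h6 : Complex.exp (-(τ * I)) * Complex.exp (τ * I) = 1 := by
          rw [← Complex.exp_add]; simp
        push_cast
        linear_combination (‖c‖ * ρ * Complex.exp (φ * I)) * h6
      rw [h1, Complex.re_ofReal_mul, Complex.exp_ofReal_mul_I_re]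
      have : 0 ≤ Real.cos φ := Real.cos_nonneg_of_mem_Icc ⟨by linarith [hφ.1, Real.pi_pos], hφ.2⟩
      positivity
    have h1 : ‖1 + conj c * ζ φ‖ ^ 2 = 1 + ‖c‖ ^ 2 * ρ ^ 2 + 2 * (conj c * ζ φ).re := by
      rw [← Complex.normSq_eq_norm_sq, Complex.normSq_add, Complex.normSq_one,
        Complex.normSq_eq_norm_sq, norm_mul, RCLike.norm_conj, hζn]
      simp
      ring
    have h2 : ‖c + ζ φ‖ ^ 2 = ‖c‖ ^ 2 + ρ ^ 2 + 2 * (conj c * ζ φ).re := by
      rw [← Complex.normSq_eq_norm_sq, Complex.normSq_add, Complex.normSq_eq_norm_sq,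
        Complex.normSq_eq_norm_sq, hζn]
      have : (c * conj (ζ φ)).re = (conj c * ζ φ).re := by
        rw [← Complex.conj_re (c * conj (ζ φ)), map_mul, Complex.conj_conj]
      rw [this]
    have h3 : ‖1 + conj c * ζ φ‖ ^ 2 ≤ 4 := by
      have h4 : ‖1 + conj c * ζ φ‖ ≤ 2 := by
        calc ‖1 + conj c * ζ φ‖ ≤ ‖(1:ℂ)‖ + ‖conj c * ζ φ‖ := norm_add_le _ _
          _ ≤ 1 + 1 := by
            rw [norm_one, norm_mul, RCLike.norm_conj, hζn]; nlinarith
          _ = 2 := by norm_num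
      nlinarith [norm_nonneg (1 + conj c * ζ φ)]
    have h5 : 0 < ‖1 + conj c * ζ φ‖ ^ 2 := by
      have := hden0 φ
      positivity
    have h6 : ‖a φ‖ ^ 2 = ‖c + ζ φ‖ ^ 2 / ‖1 + conj c * ζ φ‖ ^ 2 := by
      simp only [ha]; rw [norm_div, div_pow]
    rw [h6, le_div_iff₀ h5]
    have h7 : e * ‖1 + conj c * ζ φ‖ ^ 2 ≤ e * 4 := mul_le_mul_of_nonneg_left h3 he0.le
    have h8 : e * 4 = ρ ^ 2 * (1 - ‖c‖ ^ 4) := by rw [he]; ring
    have h9 : 0 ≤ (1 - ‖c‖ ^ 2) * (conj c * ζ φ).re := mul_nonneg (by nlinarith) hre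
    rw [add_mul, h2, h1]
    rw [h1] at h7
    nlinarith
  -- the kernel
  have hK0 : 0 < K := by
    rw [hK]
    apply intervalIntegral.intervalIntegral_pos_of_pos
    · apply Continuous.intervalIntegrable
      apply Continuous.inv₀
      · exact ((continuous_const.sub (continuous_circleMap 0 ρ)).norm.pow 2).pow n
      · intro θ
        have : 1 - circleMap 0 ρ θ ≠ 0 := by
          intro h
          have h1 : circleMap 0 ρ θ = 1 := by linear_combination -h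
          have h2 : ‖circleMap 0 ρ θ‖ = ρ := by simp [abs_of_pos hρ0]
          rw [h1, norm_one] at h2
          linarith
        positivity
    · intro θ
      have : 1 - circleMap 0 ρ θ ≠ 0 := by
        intro h
        have h1 : circleMap 0 ρ θ = 1 := by linear_combination -h
        have h2 : ‖circleMap 0 ρ θ‖ = ρ := by simp [abs_of_pos hρ0]
        rw [h1, norm_one] at h2
        linarith
      simp only [hG]
      positivity
    · exact Real.two_pi_pos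
  set W : ℝ → ℂ → ℝ := fun φ z =>
    K⁻¹ * ((‖(1 - c * z) - ζ φ * (z - conj c)‖ ^ 2) ^ n)⁻¹ with hW
  -- factorisation on the unit circle
  have hfac : ∀ z, ‖z‖ = 1 → ∃ u : ℂ, ‖u‖ = 1 ∧ z - conj c = (1 - c * z) * u := by
    intro z hz
    have h0 := one_sub_mul_ne_zero hc1 hz.le
    refine ⟨(z - conj c) / (1 - c * z), ?_, by rw [mul_comm, div_mul_cancel₀ _ h0]⟩
    have h1 : z - conj c = z * conj (1 - c * z) := by
      rw [map_sub, map_one, map_mul]
      linear_combination (conj c) * (conj_mul_self hz)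
    rw [norm_div, h1, norm_mul, hz, RCLike.norm_conj, one_mul, div_self]
    simpa using h0
  have hWfac : ∀ z, ‖z‖ = 1 → ∀ u : ℂ, z - conj c = (1 - c * z) * u → ∀ φ,
      W φ z = K⁻¹ * (((‖1 - c * z‖ ^ 2) ^ n)⁻¹ * ((‖1 - ζ φ * u‖ ^ 2) ^ n)⁻¹) := by
    intro z hz u hu φ
    simp only [hW]
    have : (1 - c * z) - ζ φ * (z - conj c) = (1 - c * z) * (1 - ζ φ * u) := by
      rw [hu]; ring
    rw [this, norm_mul, mul_pow, mul_pow, mul_inv]
  have hnz : ∀ (u : ℂ), ‖u‖ = 1 → ∀ φ, 1 - ζ φ * u ≠ 0 := by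
    intro u hu φ h
    have h1 : ζ φ * u = 1 := by linear_combination -h
    have h2 : ‖ζ φ * u‖ = ρ := by rw [norm_mul, hζn, hu, mul_one]
    rw [h1, norm_one] at h2
    linarith
  have hwr : ∀ z, wt (Multiset.replicate n c) z = ((‖1 - c * z‖ ^ 2) ^ n)⁻¹ := by
    intro z
    have := wt_replicate_add n c 0 z
    simpa [wt, tp_zero'] using this
  have hwr' : ∀ a z, wt (Multiset.replicate n a) z = ((‖1 - a * z‖ ^ 2) ^ n)⁻¹ := by
    intro a z
    have := wt_replicate_add n a 0 z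
    simpa [wt, tp_zero'] using this
  refine ⟨e, he0, K⁻¹ * (4 ^ n)⁻¹ * (Real.pi / 2), by positivity, ?_⟩
  intro M δ g hδ h1 h2
  have hWpos : ∀ (M' : ℝ) (φ : ℝ), Pos M' g n (wt (Multiset.replicate n (a φ))) →
      Pos M' g n (W φ) := by
    intro M' φ hp
    have hp' := hp.smul (k := K⁻¹ * ((‖1 + conj c * ζ φ‖ ^ 2) ^ n)⁻¹) (by positivity)
    apply hp'.congr
    intro z hz
    rw [hwr']
    simp only [hW]
    have h0 := hden0 φ
    have h3 : 1 - a φ * z = ((1 - c * z) - ζ φ * (z - conj c)) / (1 + conj c * ζ φ) := by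
      rw [eq_div_iff h0]
      simp only [ha]
      have h5 : (c + ζ φ) / (1 + conj c * ζ φ) * z * (1 + conj c * ζ φ) = (c + ζ φ) * z := by
        rw [mul_right_comm, div_mul_cancel₀ _ h0]
      rw [sub_mul, h5]
      ring
    have h4 : (‖(1 - c * z) - ζ φ * (z - conj c)‖ ^ 2) ^ n
        = (‖1 + conj c * ζ φ‖ ^ 2) ^ n * (‖1 - a φ * z‖ ^ 2) ^ n := by
      have h6 : ‖1 + conj c * ζ φ‖ ^ 2 ≠ 0 := by positivity
      rw [h3, norm_div, div_pow, ← mul_pow, ← mul_div_assoc, mul_div_cancel_left₀ _ h6]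
    rw [h4, mul_inv]; ring
  have h3 : δ * (K⁻¹ * (4 ^ n)⁻¹ * (Real.pi / 2)) = δ * (K⁻¹ * (4 ^ n)⁻¹) * (Real.pi / 2 - 0) := by
    ring
  rw [h3]
  apply pos_mix (W := W) (a := 0) (b := 2 * Real.pi) (c := 0) (d := Real.pi / 2) le_rfl
    (by positivity) (by linarith [Real.pi_pos]) hδ
  · apply Continuous.mul continuous_const
    apply Continuous.inv₀
    · apply Continuous.pow
      apply Continuous.pow
      apply Continuous.norm
      have hz : Continuous (fun p : ℝ × ℝ => circleMap 0 1 p.2) :=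
        (continuous_circleMap 0 1).comp continuous_snd
      exact (continuous_const.sub (continuous_const.mul hz)).sub
        ((hζc.comp continuous_fst).mul (hz.sub continuous_const))
    · intro p
      have hz : ‖circleMap 0 1 p.2‖ = 1 := by simp
      obtain ⟨u, hu, hu2⟩ := hfac _ hz
      have e1 : (1 - c * circleMap 0 1 p.2) - ζ p.1 * (circleMap 0 1 p.2 - conj c)
          = (1 - c * circleMap 0 1 p.2) * (1 - ζ p.1 * u) := by
        rw [hu2]; ring
      rw [e1]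
      have e2 := one_sub_mul_ne_zero hc1 hz.le
      have e3 := hnz u hu p.1
      have e4 := mul_ne_zero e2 e3
      positivity
  · apply continuousOn_wt
    intro b hb
    rw [Multiset.eq_of_mem_replicate hb]
    exact hc1
  · intro z hz
    obtain ⟨u, hu, hu2⟩ := hfac z hz
    have e1 : ∀ φ, W φ z = K⁻¹ * (((‖1 - c * z‖ ^ 2) ^ n)⁻¹) * G (circleMap 0 ρ (φ + (τ + Complex.arg u))) := by
      intro φ
      rw [hWfac z hz u hu2 φ]
      simp only [hG, hζ]
      rw [circleMap_mul_unit ρ (φ + τ) hu, add_assoc]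
      ring
    simp_rw [e1]
    rw [intervalIntegral.integral_const_mul, rotate_integral, hwr, ← hK]
    field_simp
  · intro φ _
    exact hWpos M φ (h1 _ (ha_norm φ))
  · intro φ hφ
    exact hWpos _ φ (h2 _ (ha_norm φ) (ha_far φ hφ))
  · intro φ _ z hz
    obtain ⟨u, hu, hu2⟩ := hfac z hz
    rw [hWfac z hz u hu2 φ, hwr]
    have e1 : (‖1 - ζ φ * u‖ ^ 2) ^ n ≤ 4 ^ n := by
      apply pow_le_pow_left₀ (by positivity)
      have e2 : ‖1 - ζ φ * u‖ ≤ 2 := by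
        calc ‖1 - ζ φ * u‖ ≤ ‖(1:ℂ)‖ + ‖ζ φ * u‖ := norm_sub_le _ _
          _ ≤ 1 + 1 := by rw [norm_one, norm_mul, hζn, hu]; linarith
          _ = 2 := by norm_num
      nlinarith [norm_nonneg (1 - ζ φ * u)]
    have e3 : (4 ^ n : ℝ)⁻¹ ≤ ((‖1 - ζ φ * u‖ ^ 2) ^ n)⁻¹ := by
      apply inv_anti₀ _ e1
      have := hnz u hu φ
      positivity
    have e4 : 0 ≤ ((‖1 - c * z‖ ^ 2) ^ n)⁻¹ := by positivity
    calc K⁻¹ * (4 ^ n)⁻¹ * ((‖1 - c * z‖ ^ 2) ^ n)⁻¹
        = K⁻¹ * (((‖1 - c * z‖ ^ 2) ^ n)⁻¹ * (4 ^ n)⁻¹) := by ring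
      _ ≤ K⁻¹ * (((‖1 - c * z‖ ^ 2) ^ n)⁻¹ * ((‖1 - ζ φ * u‖ ^ 2) ^ n)⁻¹) := by
        apply mul_le_mul_of_nonneg_left _ (by positivity)
        exact mul_le_mul_of_nonneg_left e3 e4

end Pool.Agent.Lib.MP_a1a577_an
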