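import Pool.Agent.Lib.MP_a1a577_an.Mixture

set_option autoImplicit false

namespace Pool.Agent.Lib.MP_a1a577_an

open Complex Metric Polynomial
open scoped ComplexConjugate InnerProductSpace

lemma norm_one_sub_mul_sq (c : ℂ) {z : ℂ} (hz : ‖z‖ = 1) :
    ‖1 - c * z‖ ^ 2 = 1 + ‖c‖ ^ 2 - 2 * (c * z).re := by
  rw [← Complex.normSq_eq_norm_sq, Complex.normSq_sub, Complex.normSq_one,
    Complex.normSq_eq_norm_sq, norm_mul, hz, mul_one]
  simp

lemma merge_real {r α x : ℝ} (hr0 : 0 < r) (hr1 : r < 1) (hx : 0 ≤ x) (hα1 : 1 ≤ α)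
    (h : x * (1 + r ^ 2) ≤ r * α) :
    ∃ κ : ℝ, 0 < κ ∧ κ ^ 2 - α * κ + x ^ 2 = 0 ∧ x / κ ≤ r := by
  have hlt : 2 * x < α := by
    by_contra hcon
    push Not at hcon
    have e1 : α * (1 + r ^ 2) ≤ 2 * x * (1 + r ^ 2) := by
      apply mul_le_mul_of_nonneg_right hcon; positivity
    have e2 : 0 < α * (1 - r) ^ 2 := by
      apply mul_pos (by linarith); apply pow_pos; linarith
    nlinarith
  set Δ : ℝ := Real.sqrt (α ^ 2 - 4 * x ^ 2) with hΔ
  have hΔ0 : 0 ≤ Δ := Real.sqrt_nonneg _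
  have hΔ2 : Δ ^ 2 = α ^ 2 - 4 * x ^ 2 := by
    rw [hΔ, Real.sq_sqrt]
    nlinarith
  have hκβ : x < (α + Δ) / 2 := by linarith
  refine ⟨(α + Δ) / 2, by linarith, by nlinarith, ?_⟩
  have hquad : ((α + Δ) / 2) ^ 2 - α * ((α + Δ) / 2) + x ^ 2 = 0 := by nlinarith
  generalize (α + Δ) / 2 = κ at hκβ hquad
  have hκpos : 0 < κ := by linarith
  rw [div_le_iff₀ hκpos]
  by_contra hcon
  push Not at hcon
  -- (x - r κ) (κ - r x) > 0
  have e1 : 0 < (x - r * κ) * (κ - r * x) := by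
    apply mul_pos (by linarith)
    nlinarith
  have e2 : r * (κ ^ 2 + x ^ 2) = r * (α * κ) := by
    have : κ ^ 2 + x ^ 2 = α * κ := by linarith
    rw [this]
  have e3 : κ * (x * (1 + r ^ 2)) ≤ κ * (r * α) := mul_le_mul_of_nonneg_left h hκpos.le
  nlinarith

lemma merge_point {c b : ℂ} {r σ : ℝ} (hr0 : 0 < r) (hr1 : r < 1) (hc : ‖c‖ ≤ r) (hb : ‖b‖ ≤ r)
    (h0 : 0 ≤ σ) (h1 : σ ≤ 1) :
    ∃ γ : ℂ, ∃ κ : ℝ, ‖γ‖ ≤ r ∧ 0 < κ ∧ ∀ z : ℂ, ‖z‖ = 1 →
      σ * ‖1 - c * z‖ ^ 2 + (1 - σ) * ‖1 - b * z‖ ^ 2 = κ * ‖1 - γ * z‖ ^ 2 := by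
  have h1' : 0 ≤ 1 - σ := by linarith
  have hβn : ‖(σ : ℂ) * c + ((1 - σ : ℝ) : ℂ) * b‖ ≤ σ * ‖c‖ + (1 - σ) * ‖b‖ := by
    calc ‖(σ : ℂ) * c + ((1 - σ : ℝ) : ℂ) * b‖
        ≤ ‖(σ : ℂ) * c‖ + ‖((1 - σ : ℝ) : ℂ) * b‖ := norm_add_le _ _
      _ = σ * ‖c‖ + (1 - σ) * ‖b‖ := by
        rw [norm_mul, norm_mul, Complex.norm_real, Complex.norm_real, Real.norm_of_nonneg h0,
          Real.norm_of_nonneg h1']
  have key : ∀ x : ℝ, 0 ≤ x → x ≤ r → x * (1 + r ^ 2) ≤ r * (1 + x ^ 2) := by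
    intro x hx0 hxr
    have : 0 ≤ (r - x) * (1 - r * x) := by
      apply mul_nonneg (by linarith)
      nlinarith
    nlinarith
  have hc' := key _ (norm_nonneg c) hc
  have hb' := key _ (norm_nonneg b) hb
  have hαβ : ‖(σ : ℂ) * c + ((1 - σ : ℝ) : ℂ) * b‖ * (1 + r ^ 2)
      ≤ r * (σ * (1 + ‖c‖ ^ 2) + (1 - σ) * (1 + ‖b‖ ^ 2)) := by
    have e1 := mul_le_mul_of_nonneg_left hc' h0
    have e2 := mul_le_mul_of_nonneg_left hb' h1'
    have e3 : ‖(σ : ℂ) * c + ((1 - σ : ℝ) : ℂ) * b‖ * (1 + r ^ 2)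
        ≤ (σ * ‖c‖ + (1 - σ) * ‖b‖) * (1 + r ^ 2) := by
      apply mul_le_mul_of_nonneg_right hβn; positivity
    calc _ ≤ _ := e3
      _ = σ * (‖c‖ * (1 + r ^ 2)) + (1 - σ) * (‖b‖ * (1 + r ^ 2)) := by ring
      _ ≤ σ * (r * (1 + ‖c‖ ^ 2)) + (1 - σ) * (r * (1 + ‖b‖ ^ 2)) := add_le_add e1 e2
      _ = _ := by ring
  have hα1 : 1 ≤ σ * (1 + ‖c‖ ^ 2) + (1 - σ) * (1 + ‖b‖ ^ 2) := by
    have e1 := mul_nonneg h0 (sq_nonneg ‖c‖)
    have e2 := mul_nonneg h1' (sq_nonneg ‖b‖)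
    linarith
  obtain ⟨κ, hκpos, hquad, hle⟩ := merge_real hr0 hr1 (norm_nonneg _) hα1 hαβ
  have hκC : (κ : ℂ) ≠ 0 := by exact_mod_cast hκpos.ne'
  refine ⟨((σ : ℂ) * c + ((1 - σ : ℝ) : ℂ) * b) / (κ : ℂ), κ, ?_, hκpos, ?_⟩
  · rw [norm_div, Complex.norm_real, Real.norm_of_nonneg hκpos.le]; exact hle
  · intro z hz
    rw [norm_one_sub_mul_sq c hz, norm_one_sub_mul_sq b hz, norm_one_sub_mul_sq _ hz]
    have e1 : κ * (((σ : ℂ) * c + ((1 - σ : ℝ) : ℂ) * b) / (κ : ℂ) * z).re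
        = σ * (c * z).re + (1 - σ) * (b * z).re := by
      rw [← Complex.re_ofReal_mul, ← Complex.re_ofReal_mul, ← Complex.re_ofReal_mul,
        ← Complex.add_re]
      congr 1
      field_simp
    have e4 : κ * ‖((σ : ℂ) * c + ((1 - σ : ℝ) : ℂ) * b) / (κ : ℂ)‖ ^ 2
        = ‖(σ : ℂ) * c + ((1 - σ : ℝ) : ℂ) * b‖ ^ 2 / κ := by
      rw [norm_div, Complex.norm_real, Real.norm_of_nonneg hκpos.le]
      field_simp
    have e5 : κ + ‖(σ : ℂ) * c + ((1 - σ : ℝ) : ℂ) * b‖ ^ 2 / κ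
        = σ * (1 + ‖c‖ ^ 2) + (1 - σ) * (1 + ‖b‖ ^ 2) := by
      rw [eq_comm]
      field_simp
      linarith
    linear_combination (-1) * e5 + e4 * (-1) + 2 * e1

/-- Clamp to the unit interval. -/
noncomputable def clamp (s : ℝ) : ℝ := max 0 (min 1 s)

lemma clamp_nonneg (s : ℝ) : 0 ≤ clamp s := le_max_left _ _
lemma clamp_le_one (s : ℝ) : clamp s ≤ 1 := max_le zero_le_one (min_le_left _ _)
lemma clamp_eq {s : ℝ} (h : s ∈ Set.Icc (0:ℝ) 1) : clamp s = s := by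
  unfold clamp
  rw [min_eq_right h.2, max_eq_right h.1]
lemma continuous_clamp : Continuous clamp :=
  continuous_const.max (continuous_const.min continuous_id)

/-- Feynman parametrisation for two factors, one with multiplicity. -/
lemma feynman (k : ℕ) (hk : 1 ≤ k) {A B : ℝ} (hA : 0 < A) (hB : 0 < B) :
    ∫ s in (0:ℝ)..1, (k * s ^ (k - 1)) * ((s * A + (1 - s) * B) ^ (k + 1))⁻¹ = (A ^ k * B)⁻¹ := by
  have hD : ∀ s ∈ Set.uIcc (0:ℝ) 1, 0 < s * A + (1 - s) * B := by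
    intro s hs
    rw [Set.uIcc_of_le zero_le_one] at hs
    rcases eq_or_lt_of_le hs.1 with h | h
    · rw [← h]; simpa using hB
    · have := mul_pos h hA
      have := mul_nonneg (sub_nonneg.mpr hs.2) hB.le
      linarith
  have hderiv : ∀ s ∈ Set.uIcc (0:ℝ) 1,
      HasDerivAt (fun s : ℝ => (s / (s * A + (1 - s) * B)) ^ k / B)
        ((k * s ^ (k - 1)) * ((s * A + (1 - s) * B) ^ (k + 1))⁻¹) s := by
    intro s hs
    have hDs := hD s hs
    have h1 : HasDerivAt (fun s : ℝ => s * A + (1 - s) * B) (A - B) s := by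
      have := ((hasDerivAt_id s).mul_const A).add
        (((hasDerivAt_const s (1:ℝ)).sub (hasDerivAt_id s)).mul_const B)
      convert! this using 1
      ring
    have h2 : HasDerivAt (fun s : ℝ => s / (s * A + (1 - s) * B))
        ((1 * (s * A + (1 - s) * B) - s * (A - B)) / (s * A + (1 - s) * B) ^ 2) s :=
      (hasDerivAt_id s).div h1 hDs.ne'
    have h3 : HasDerivAt (fun s : ℝ => (s / (s * A + (1 - s) * B)) ^ k / B) _ s :=
      (h2.pow k).div_const B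
    convert! h3 using 1
    have e1 : (1 * (s * A + (1 - s) * B) - s * (A - B)) = B := by ring
    rw [e1]
    obtain ⟨m, rfl⟩ : ∃ m, k = m + 1 := ⟨k - 1, by omega⟩
    simp only [Nat.add_sub_cancel]
    generalize (s * A + (1 - s) * B) = D at hDs
    rw [div_pow]
    field_simp
    ring
  rw [intervalIntegral.integral_eq_sub_of_hasDerivAt hderiv]
  · simp only [zero_div, one_mul, sub_self, zero_mul, add_zero, sub_zero]
    rw [zero_pow (by omega), zero_div, sub_zero, one_div, inv_pow, mul_inv, div_eq_mul_inv]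
  · apply ContinuousOn.intervalIntegrable
    apply ContinuousOn.mul
    · fun_prop
    · apply ContinuousOn.inv₀
      · fun_prop
      · intro s hs
        have := hD s hs
        positivity

lemma continuous_wt_circle {t : Multiset ℂ} (ht : ∀ b ∈ t, ‖b‖ < 1) :
    Continuous (fun θ : ℝ => wt t (circleMap 0 1 θ)) :=
  (continuousOn_wt ht).comp_continuous (continuous_circleMap 0 1)
    (fun θ => circleMap_mem_sphere 0 zero_le_one θ)

lemma wt_replicate_add (k : ℕ) (γ : ℂ) (t : Multiset ℂ) (z : ℂ) :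
    wt (Multiset.replicate k γ + t) z = ((‖1 - γ * z‖ ^ 2) ^ k)⁻¹ * wt t z := by
  unfold wt
  rw [tp_add, tp_replicate, norm_mul, norm_pow, mul_pow, mul_inv, ← pow_mul, ← pow_mul,
    mul_comm k 2]

lemma wt_cons (b : ℂ) (t : Multiset ℂ) (z : ℂ) :
    wt (b ::ₘ t) z = (‖1 - b * z‖ ^ 2)⁻¹ * wt t z := by
  unfold wt
  rw [tp_cons, norm_mul, mul_pow, mul_inv]

theorem pos_merge {M : ℝ} {g : ℂ[X]} {n k : ℕ} (hk : 1 ≤ k) {r : ℝ} (hr0 : 0 < r) (hr1 : r < 1)
    {c b : ℂ} (hc : ‖c‖ ≤ r) (hb : ‖b‖ ≤ r) (t : Multiset ℂ) (ht : ∀ x ∈ t, ‖x‖ ≤ r)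
    (h : ∀ γ : ℂ, ‖γ‖ ≤ r → Pos M g n (wt (Multiset.replicate (k + 1) γ + t))) :
    Pos M g n (wt (b ::ₘ (Multiset.replicate k c + t))) := by
  have ht1 : ∀ x ∈ t, ‖x‖ < 1 := fun x hx => lt_of_le_of_lt (ht x hx) hr1
  have hpos : ∀ (a : ℂ), ‖a‖ ≤ r → ∀ z, ‖z‖ = 1 → 0 < ‖1 - a * z‖ ^ 2 := by
    intro a ha z hz
    have := one_sub_mul_ne_zero (b := a) (z := z) (lt_of_le_of_lt ha hr1) hz.le
    positivity
  have hcomb : ∀ s z, ‖z‖ = 1 →
      0 < clamp s * ‖1 - c * z‖ ^ 2 + (1 - clamp s) * ‖1 - b * z‖ ^ 2 := by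
    intro s z hz
    have h1 := hpos c hc z hz
    have h2 := hpos b hb z hz
    rcases eq_or_lt_of_le (clamp_nonneg s) with h0 | h0
    · rw [← h0]; simpa using h2
    · have := mul_pos h0 h1
      have := mul_nonneg (sub_nonneg.mpr (clamp_le_one s)) h2.le
      linarith
  let W : ℝ → ℂ → ℝ := fun s z => (k * clamp s ^ (k - 1)) *
    ((clamp s * ‖1 - c * z‖ ^ 2 + (1 - clamp s) * ‖1 - b * z‖ ^ 2) ^ (k + 1))⁻¹ * wt t z
  apply pos_mix' (W := W) (a := 0) (b := 1) zero_le_one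
  · apply Continuous.mul
    · apply Continuous.mul
      · exact continuous_const.mul ((continuous_clamp.comp continuous_fst).pow _)
      · apply Continuous.inv₀
        · apply Continuous.pow
          have hz : Continuous (fun p : ℝ × ℝ => circleMap 0 1 p.2) :=
            (continuous_circleMap 0 1).comp continuous_snd
          have hs : Continuous (fun p : ℝ × ℝ => clamp p.1) := continuous_clamp.comp continuous_fst
          exact (hs.mul ((continuous_const.sub (continuous_const.mul hz)).norm.pow 2)).add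
            ((continuous_const.sub hs).mul ((continuous_const.sub (continuous_const.mul hz)).norm.pow 2))
        · intro p
          have := hcomb p.1 (circleMap 0 1 p.2) (by simp)
          positivity
    · exact (continuous_wt_circle ht1).comp continuous_snd
  · intro z hz
    have e1 : ∫ s in (0:ℝ)..1, W s z = ∫ s in (0:ℝ)..1, (k * s ^ (k - 1)) *
        ((s * ‖1 - c * z‖ ^ 2 + (1 - s) * ‖1 - b * z‖ ^ 2) ^ (k + 1))⁻¹ * wt t z := by
      apply intervalIntegral.integral_congr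
      intro s hs
      rw [Set.uIcc_of_le zero_le_one] at hs
      simp only [W]
      rw [clamp_eq hs]
    rw [e1, intervalIntegral.integral_mul_const, feynman k hk (hpos c hc z hz) (hpos b hb z hz),
      wt_cons, wt_replicate_add, mul_inv]
    ring
  · intro s hs
    obtain ⟨γ, κ, hγ, hκ, hz⟩ := merge_point (σ := clamp s) hr0 hr1 hc hb (clamp_nonneg s)
      (clamp_le_one s)
    have h1 := (h γ hγ).smul (k := (k * clamp s ^ (k - 1)) * (κ ^ (k + 1))⁻¹) (by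
      have := clamp_nonneg s
      positivity)
    apply h1.congr
    intro z hz1
    simp only [W]
    rw [hz z hz1, wt_replicate_add, mul_pow, mul_inv]
    ring

/-- From single-root weights to arbitrary weights. -/
theorem pos_all {M : ℝ} {g : ℂ[X]} {n : ℕ} {r : ℝ} (hr0 : 0 < r) (hr1 : r < 1)
    (h : ∀ γ : ℂ, ‖γ‖ ≤ r → Pos M g n (wt (Multiset.replicate n γ))) :
    ∀ (t : Multiset ℂ) (k : ℕ) (c : ℂ), k + Multiset.card t = n → 1 ≤ k → ‖c‖ ≤ r →
      (∀ x ∈ t, ‖x‖ ≤ r) → Pos M g n (wt (Multiset.replicate k c + t)) := by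
  intro t
  induction t using Multiset.induction_on with
  | empty =>
    intro k c hk _ hc _
    simp only [Multiset.card_zero, add_zero] at hk
    subst hk
    rw [add_zero]
    exact h c hc
  | cons b t ih =>
    intro k c hk hk1 hc ht
    rw [Multiset.card_cons] at hk
    have e : Multiset.replicate k c + b ::ₘ t = b ::ₘ (Multiset.replicate k c + t) := by
      rw [Multiset.add_cons]
    rw [e]
    apply pos_merge hk1 hr0 hr1 hc (ht b (Multiset.mem_cons_self b t)) t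
      (fun x hx => ht x (Multiset.mem_cons_of_mem hx))
    intro γ hγ
    exact ih (k + 1) γ (by omega) (by omega) hγ (fun x hx => ht x (Multiset.mem_cons_of_mem hx))

theorem pos_all' {M : ℝ} {g : ℂ[X]} {n : ℕ} (hn : 1 ≤ n) {r : ℝ} (hr0 : 0 < r) (hr1 : r < 1)
    (h : ∀ γ : ℂ, ‖γ‖ ≤ r → Pos M g n (wt (Multiset.replicate n γ)))
    (s : Multiset ℂ) (hs : Multiset.card s = n) (hsr : ∀ x ∈ s, ‖x‖ ≤ r) : Pos M g n (wt s) := by
  induction s using Multiset.induction_on with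
  | empty => simp at hs; omega
  | cons b t _ =>
    have e : b ::ₘ t = Multiset.replicate 1 b + t := by simp
    rw [e]
    rw [Multiset.card_cons] at hs
    exact pos_all hr0 hr1 h t 1 b (by omega) le_rfl (hsr b (Multiset.mem_cons_self b t))
      (fun x hx => hsr x (Multiset.mem_cons_of_mem hx))

end Pool.Agent.Lib.MP_a1a577_an
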