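import Pool.Agent.Lib.MP_a1a577_an.Weighted

set_option autoImplicit false

namespace Pool.Agent.Lib.MP_a1a577_an

open Complex Metric Polynomial
open scoped ComplexConjugate InnerProductSpace

variable {H : Type*} [NormedAddCommGroup H] [InnerProductSpace ℂ H] [FiniteDimensional ℂ H]

/-- Transfer from one Hilbert space to another one of the same dimension. -/
lemma transfer {E : Type*} [NormedAddCommGroup E] [InnerProductSpace ℂ E] [FiniteDimensional ℂ E]
    {n : ℕ} (hH : Module.finrank ℂ H = n) (hE : Module.finrank ℂ E = n) (p g : ℂ[X]) (M : ℝ)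
    (hM : ∀ S : H →L[ℂ] H, ‖S‖ ≤ 1 → aeval S p = 0 → ‖aeval S g‖ ≤ M)
    (R : E →L[ℂ] E) (hR : ‖R‖ ≤ 1) (hp : aeval R p = 0) : ‖aeval R g‖ ≤ M := by
  let e : E ≃ₗᵢ[ℂ] H := ((stdOrthonormalBasis ℂ E).reindex (finCongr hE)).repr.trans
    ((stdOrthonormalBasis ℂ H).reindex (finCongr hH)).repr.symm
  let Φ := (e.toContinuousLinearEquiv).conjContinuousAlgEquiv
  have hΦ : ∀ A : E →L[ℂ] E, ‖Φ A‖ = ‖A‖ := by
    intro A
    apply le_antisymm
    · apply ContinuousLinearMap.opNorm_le_bound _ (norm_nonneg _)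
      intro x
      have : Φ A x = e (A (e.symm x)) := rfl
      rw [this, e.norm_map]
      calc ‖A (e.symm x)‖ ≤ ‖A‖ * ‖e.symm x‖ := A.le_opNorm _
        _ = ‖A‖ * ‖x‖ := by rw [e.symm.norm_map]
    · apply ContinuousLinearMap.opNorm_le_bound _ (norm_nonneg _)
      intro x
      have : A x = e.symm (Φ A (e x)) := by
        have : Φ A (e x) = e (A (e.symm (e x))) := rfl
        rw [this]; simp
      rw [this, e.symm.norm_map]
      calc ‖Φ A (e x)‖ ≤ ‖Φ A‖ * ‖e x‖ := (Φ A).le_opNorm _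
        _ = ‖Φ A‖ * ‖x‖ := by rw [e.norm_map]
  let Ψ : (E →L[ℂ] E) →ₐ[ℂ] (H →L[ℂ] H) := Φ.toAlgEquiv.toAlgHom
  have hΨ : ∀ A, Ψ A = Φ A := fun _ => rfl
  have h1 : ∀ f : ℂ[X], aeval (Φ R) f = Φ (aeval R f) := by
    intro f
    rw [← hΨ, ← hΨ, aeval_algHom_apply]
  have h2 := hM (Φ R) (by rw [hΦ]; exact hR) (by rw [h1, hp]; simp)
  rw [h1, hΦ] at h2
  exact h2

theorem pos_of_norm_le (n : ℕ) (hH : Module.finrank ℂ H = n) (s : Multiset ℂ) (hn : Multiset.card s = n)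
    (hs : ∀ b ∈ s, ‖b‖ < 1) (g : ℂ[X]) (M : ℝ)
    (hM : ∀ S : H →L[ℂ] H, ‖S‖ ≤ 1 → aeval S (pp s) = 0 → ‖aeval S g‖ ≤ M) :
    Pos M g n (wt s) := by
  obtain ⟨E, i1, i2, φ, hφ⟩ := exists_model n hs
  have : FiniteDimensional ℂ E := by
    have : Module.Finite ℂ (degreeLT ℂ n) := Module.Finite.equiv (degreeLTEquiv ℂ n).symm
    exact Module.Finite.equiv φ.symm
  have hfin : Module.finrank ℂ E = n := by
    rw [φ.finrank_eq, (degreeLTEquiv ℂ n).finrank_eq]; simp
  -- the operator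
  let R0 : E →ₗ[ℂ] E := φ.symm.toLinearMap ∘ₗ shiftPoly s n hn ∘ₗ φ.toLinearMap
  let R : E →L[ℂ] E := LinearMap.toContinuousLinearMap R0
  have hRv : ∀ v, φ (R v) = shiftPoly s n hn (φ v) := by
    intro v
    change φ (φ.symm (shiftPoly s n hn (φ v))) = _
    simp
  have hnorm : ∀ v : E, ‖v‖ ^ 2 = av (fun z => wt s z * ‖(φ v : ℂ[X]).eval z‖ ^ 2) := by
    intro v
    have h1 := hφ v v
    rw [form_self hs, inner_self_eq_norm_sq_to_K] at h1
    have h2 := congrArg Complex.re h1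
    rw [Complex.ofReal_re] at h2
    rw [← h2]
    norm_cast
  have hR : ‖R‖ ≤ 1 := by
    apply ContinuousLinearMap.opNorm_le_bound _ zero_le_one
    intro v
    rw [one_mul]
    have h1 := form_shift_le hs n hn (φ v)
    rw [← hRv, ← hnorm, ← hnorm] at h1
    exact le_of_sq_le_sq h1 (norm_nonneg _) |> fun h => h
  have hRg : ∀ (f : ℂ[X]) (v : E), φ (aeval R f v) = (aeval (shiftPoly s n hn) f) (φ v) := by
    intro f v
    induction f using Polynomial.induction_on' with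
    | add f f' hf hf' =>
      rw [map_add, map_add, _root_.add_apply, map_add, hf, hf', LinearMap.add_apply]
    | monomial k a =>
      rw [aeval_monomial, aeval_monomial, mul_apply_eq_comp, Module.End.mul_apply,
        Module.algebraMap_end_apply, Algebra.algebraMap_eq_smul_one, _root_.smul_apply,
        one_apply_eq_self, map_smul]
      congr 1
      induction k with
      | zero => simp
      | succ k ih =>
        rw [pow_succ', pow_succ', mul_apply_eq_comp, Module.End.mul_apply, hRv, ih]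
  have hinner : ∀ (f : ℂ[X]) (v w : E), ⟪v, aeval R f w⟫_ℂ = form s f (φ v : ℂ[X]) (φ w : ℂ[X]) := by
    intro f v w
    rw [hφ, hRg, form_aeval hs]
  have hp : aeval R (pp s) = 0 := by
    ext w
    have h1 : ∀ v : E, ⟪v, aeval R (pp s) w⟫_ℂ = 0 := by
      intro v
      rw [hinner, form_pp_eq_zero hs n hn]
    have := h1 (aeval R (pp s) w)
    rw [inner_self_eq_zero] at this
    rw [this]; rfl
  have hA := transfer hH hfin (pp s) g M hM R hR hp
  have hM0 : 0 ≤ M := le_trans (norm_nonneg _) hA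
  intro q₁ q₂ hq₁ hq₂
  set v := φ.symm ⟨q₁, mem_degreeLT.mpr hq₁⟩ with hv
  set w := φ.symm ⟨q₂, mem_degreeLT.mpr hq₂⟩ with hw
  have hφv : (φ v : ℂ[X]) = q₁ := by rw [hv]; simp
  have hφw : (φ w : ℂ[X]) = q₂ := by rw [hw]; simp
  have e1 := hnorm v
  have e2 := hnorm w
  have e3 := hinner g v w
  rw [hφv] at e1 e3
  rw [hφw] at e2 e3
  have c1 : ∀ q : ℂ[X], ContinuousOn (fun z => wt s z * ‖q.eval z‖ ^ 2) (sphere 0 1) := fun q =>
    (continuousOn_wt hs).mul ((q.continuous.norm.pow 2).continuousOn)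
  have c2 := continuousOn_integrand hs g q₁ q₂
  have h1 : (fun z => wt s z * (M / 2 * (‖q₁.eval z‖ ^ 2 + ‖q₂.eval z‖ ^ 2)
      - (g.eval (conj z) * (conj (q₁.eval z) * q₂.eval z)).re))
      = fun z => M / 2 * (wt s z * ‖q₁.eval z‖ ^ 2 + wt s z * ‖q₂.eval z‖ ^ 2)
        - ((wt s z : ℂ) * (g.eval (conj z) * (conj (q₁.eval z) * q₂.eval z))).re := by
    ext z
    rw [Complex.re_ofReal_mul]; ring
  rw [h1, av_sub, av_real_const_mul, av_add, av_re c2]
  · have h2 : (av (fun z => (wt s z : ℂ) * (g.eval (conj z) * (conj (q₁.eval z) * q₂.eval z)))).re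
        = (⟪v, aeval R g w⟫_ℂ).re := by rw [e3]; rfl
    rw [h2, ← e1, ← e2]
    have h3 : (⟪v, aeval R g w⟫_ℂ).re ≤ ‖v‖ * (M * ‖w‖) := by
      calc (⟪v, aeval R g w⟫_ℂ).re ≤ ‖⟪v, aeval R g w⟫_ℂ‖ := Complex.re_le_norm _
        _ ≤ ‖v‖ * ‖aeval R g w‖ := norm_inner_le_norm _ _
        _ ≤ ‖v‖ * (‖aeval R g‖ * ‖w‖) := by gcongr; exact ContinuousLinearMap.le_opNorm _ _
        _ ≤ ‖v‖ * (M * ‖w‖) := by gcongr
    nlinarith [sq_nonneg (‖v‖ - ‖w‖), norm_nonneg v, norm_nonneg w]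
  · exact c1 _
  · exact c1 _
  · exact continuousOn_const.mul ((c1 _).add (c1 _))
  · exact Complex.continuous_re.comp_continuousOn c2

end Pool.Agent.Lib.MP_a1a577_an
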