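import Pool.Agent.Lib.MP_a1a577_an.Compact
import Pool.Agent.Lib.MP_a1a577_an.HypCircle
import Pool.Agent.Lib.MP_a1a577_an.Merge
import Pool.Agent.Lib.MP_a1a577_an.Reverse
import Pool.Agent.Lib.MP_a1a577_an.Defs

set_option autoImplicit false

namespace Pool.Agent.Lib.MP_a1a577_an

open Complex Metric Polynomial Filter Topology
open scoped ComplexConjugate InnerProductSpace NNReal ENNReal

variable (H : Type*) [NormedAddCommGroup H] [InnerProductSpace ℂ H]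

lemma norm_one_le : ‖(1 : H →L[ℂ] H)‖ ≤ 1 := ContinuousLinearMap.norm_id_le

lemma av_wt_pos {s : Multiset ℂ} (hs : ∀ b ∈ s, ‖b‖ < 1) : 0 < av (wt s) := by
  have h := av_norm_sq_pos hs (q := 1) one_ne_zero
  simpa using h

theorem properHS [FiniteDimensional ℂ H] : ProperSpace (H →L[ℂ] H) := FiniteDimensional.proper ℂ _

/-- The core: a maximiser on the circle of radius `r`. -/
theorem core [FiniteDimensional ℂ H] (n : ℕ) (hH : Module.finrank ℂ H = n) (hn : 1 ≤ n) {r ρ : ℝ} (hr0 : 0 < r) (hr1 : r < 1) (hρ : r < ρ) (hρ1 : ρ < 1)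
    {f : ℂ → ℂ} (hf : DifferentiableOn ℂ f (ball 0 1)) :
    ∃ (a : ℂ) (T₀ : H →L[ℂ] H), ‖a‖ = r ∧
      Killed n r (Multiset.replicate n a) T₀ ∧
      ∀ (s : Multiset ℂ) (T : H →L[ℂ] H), Killed n r s T → ‖dun ρ f T‖ ≤ ‖dun ρ f T₀‖ := by
  have hprop : ProperSpace (H →L[ℂ] H) := properHS H
  have hone := norm_one_le H
  set Ω : Set (ℂ × (H →L[ℂ] H)) := pairs (H →L[ℂ] H) n r with hΩ
  have hΩc : IsCompact Ω := isCompact_pairs n r
  have hkill : ∀ x ∈ Ω, Killed n r (Multiset.replicate n x.1) x.2 := by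
    rintro ⟨a, T⟩ ⟨h1, h2, h3⟩
    refine ⟨hone, h2, by simp, ?_, h3⟩
    intro b hb
    rw [Multiset.eq_of_mem_replicate hb]; exact h1
  have hmemΩ : ∀ (a : ℂ) (S : H →L[ℂ] H), ‖a‖ ≤ r → ‖S‖ ≤ 1 →
      aeval S (pp (Multiset.replicate n a)) = 0 → (a, S) ∈ Ω := fun a S h1 h2 h3 => ⟨h1, h2, h3⟩
  have hdun := continuousOn_dun (A := H →L[ℂ] H) hf n hr0.le hr1 hρ hρ1
  let F : ℂ × (H →L[ℂ] H) → ℝ := fun x => ‖dun ρ f x.2‖
  have hF : ContinuousOn F Ω := by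
    refine ContinuousOn.norm ?_
    refine hdun.comp continuous_snd.continuousOn ?_
    intro x hx
    exact ⟨_, hkill x hx⟩
  have hΩne : Ω.Nonempty := by
    refine ⟨((0 : ℂ), (0 : ℂ) • (1 : H →L[ℂ] H)), ?_⟩
    have h := smul_one_killed hone (a := 0) (by simp) (p := pp (Multiset.replicate n (0 : ℂ)))
      (by rw [pp_replicate]; simp; omega)
    exact ⟨by simpa using hr0.le, h.1, h.2⟩
  obtain ⟨x₁, hx₁, hmax₁⟩ := hΩc.exists_isMaxOn hΩne hF
  set M₁ : ℝ := F x₁ with hM₁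
  -- the set of maximisers
  set Ω₁ : Set (ℂ × (H →L[ℂ] H)) := Ω ∩ F ⁻¹' {M₁} with hΩ₁
  have hΩ₁c : IsCompact Ω₁ := by
    refine hΩc.of_isClosed_subset ?_ Set.inter_subset_left
    exact hF.preimage_isClosed_of_isClosed hΩc.isClosed isClosed_singleton
  obtain ⟨x₀, hx₀, hmax₀⟩ := hΩ₁c.exists_isMaxOn ⟨x₁, hx₁, rfl⟩
    (f := fun x => ‖x.1‖) continuous_fst.norm.continuousOn
  obtain ⟨c, T₀⟩ := x₀
  have hx₀Ω : (c, T₀) ∈ Ω := hx₀.1
  have hFx₀ : ‖dun ρ f T₀‖ = M₁ := hx₀.2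
  have hc : ‖c‖ ≤ r := hx₀Ω.1
  -- all norms on Ω at most M₁
  have hle : ∀ x ∈ Ω, ‖dun ρ f x.2‖ ≤ M₁ := fun x hx => hmax₁ hx
  have hposall : ∀ (ε : ℝ) (g : ℂ[X]), (∀ (s : Multiset ℂ) (T : H →L[ℂ] H), Killed n r s T →
      ‖dun ρ f T - aeval T g‖ ≤ ε) → ∀ a : ℂ, ‖a‖ ≤ r →
      Pos (M₁ + ε) g n (wt (Multiset.replicate n a)) := by
    intro ε g hg a ha
    apply pos_of_norm_le n hH _ (by simp)
    · intro b hb
      rw [Multiset.eq_of_mem_replicate hb]; linarith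
    · intro S hS hS0
      have hmem := hmemΩ a S ha hS hS0
      have h1 := hg _ S (hkill _ hmem)
      have h2 := hle _ hmem
      have h3 : ‖aeval S g‖ ≤ ‖dun ρ f S‖ + ‖dun ρ f S - aeval S g‖ := by
        have := norm_sub_norm_le (aeval S g) (dun ρ f S)
        rw [norm_sub_rev] at this
        linarith
      simp only at h2
      linarith
  have hroots : ∀ a : ℂ, ‖a‖ ≤ r → ∀ b ∈ Multiset.replicate n a, ‖b‖ < 1 := by
    intro a ha b hb
    rw [Multiset.eq_of_mem_replicate hb]; linarith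
  -- the point lies on the circle
  have hcr : ‖c‖ = r := by
    by_contra hne
    have hclt : ‖c‖ < r := lt_of_le_of_ne hc hne
    obtain ⟨e, he, κ, hκ, hpc⟩ := pos_circle hr1 hclt n
    set Ω₂ : Set (ℂ × (H →L[ℂ] H)) := Ω ∩ {x | ‖c‖ ^ 2 + e ≤ ‖x.1‖ ^ 2} with hΩ₂
    have hΩ₂c : IsCompact Ω₂ := by
      refine hΩc.inter_right ?_
      exact isClosed_le continuous_const (continuous_fst.norm.pow 2)
    have hgap : ∃ δ > 0, ∀ x ∈ Ω₂, ‖dun ρ f x.2‖ ≤ M₁ - δ := by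
      by_cases hne2 : Ω₂.Nonempty
      · obtain ⟨x₂, hx₂, hmax₂⟩ := hΩ₂c.exists_isMaxOn hne2 (hF.mono Set.inter_subset_left)
        refine ⟨M₁ - F x₂, ?_, ?_⟩
        · have h1 : F x₂ ≤ M₁ := hmax₁ hx₂.1
          rcases h1.lt_or_eq with h2 | h2
          · linarith
          · exfalso
            have h3 : x₂ ∈ Ω₁ := ⟨hx₂.1, h2⟩
            have h4 : ‖x₂.1‖ ≤ ‖c‖ := hmax₀ h3
            have h5 : ‖c‖ ^ 2 + e ≤ ‖x₂.1‖ ^ 2 := hx₂.2
            have h6 : ‖x₂.1‖ ^ 2 ≤ ‖c‖ ^ 2 := by gcongr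
            linarith
        · intro x hx
          have : F x ≤ F x₂ := hmax₂ hx
          have h7 : F x = ‖dun ρ f x.2‖ := rfl
          linarith
      · refine ⟨1, one_pos, fun x hx => ?_⟩
        exact absurd ⟨x, hx⟩ hne2
    obtain ⟨δ, hδ, hgap⟩ := hgap
    set ε : ℝ := δ * κ / 4 with hε
    have hε0 : 0 < ε := by positivity
    obtain ⟨g, hg⟩ := exists_dun_approx (A := H →L[ℂ] H) hf n hr0.le hr1 hρ hρ1 hε0
    have hP := hpc (M₁ + ε) δ g hδ.le (hposall ε g hg) ?_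
    · have hM0 : 0 ≤ M₁ + ε - δ * κ :=
        av_zero_poly g _ n _ hP (by omega) (av_wt_pos (hroots c hc))
      have h1 : ‖aeval T₀ g‖ ≤ M₁ + ε - δ * κ := by
        refine norm_aeval_le_of_pos T₀ hx₀Ω.2.1 (Multiset.replicate n c) (hroots c hc) hx₀Ω.2.2 g _
          hM0 ?_
        rw [Multiset.card_replicate]
        exact hP
      have h2 := hg _ T₀ (hkill _ hx₀Ω)
      have h3 := norm_sub_norm_le (dun ρ f T₀) (aeval T₀ g)
      rw [hFx₀] at h3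
      have h4 : δ * κ = 4 * ε := by rw [hε]; ring
      linarith
    · intro a ha hae
      apply pos_of_norm_le n hH _ (by simp) (hroots a ha)
      intro S hS hS0
      have hmem := hmemΩ a S ha hS hS0
      have h1 := hg _ S (hkill _ hmem)
      have h2 := hgap _ ⟨hmem, hae⟩
      have h3 : ‖aeval S g‖ ≤ ‖dun ρ f S‖ + ‖dun ρ f S - aeval S g‖ := by
        have := norm_sub_norm_le (aeval S g) (dun ρ f S)
        rw [norm_sub_rev] at this
        linarith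
      simp only at h2
      linarith
  refine ⟨c, T₀, hcr, hkill _ hx₀Ω, ?_⟩
  intro s T hT
  rw [hFx₀]
  apply le_of_forall_pos_le_add
  intro ε hε
  obtain ⟨g, hg⟩ := exists_dun_approx (A := H →L[ℂ] H) hf n hr0.le hr1 hρ hρ1
    (ε := ε / 2) (by positivity)
  have hs1 : ∀ b ∈ s, ‖b‖ < 1 := fun b hb => lt_of_le_of_lt (hT.roots_le b hb) hr1
  have hP : Pos (M₁ + ε / 2) g n (wt s) :=
    pos_all' hn hr0 hr1 (hposall (ε / 2) g hg) s hT.card_eq hT.roots_le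
  have hM0 : 0 ≤ M₁ + ε / 2 := by
    have : 0 ≤ M₁ := norm_nonneg _
    positivity
  have h1 : ‖aeval T g‖ ≤ M₁ + ε / 2 := by
    refine norm_aeval_le_of_pos T hT.norm_le s hs1 hT.killed g _ hM0 ?_
    rw [hT.card_eq]
    exact hP
  have h2 := hg _ T hT
  have h3 := norm_sub_norm_le (dun ρ f T) (aeval T g)
  linarith

lemma isGreatest_normValues [FiniteDimensional ℂ H] (n : ℕ) (hn : 1 ≤ n) {r ρ : ℝ} (hr0 : 0 < r) (hr1 : r < 1) (hρ : r < ρ)
    (hρ1 : ρ < 1) {f : ℂ → ℂ} (hf : DifferentiableOn ℂ f (ball 0 1)) {p : ℂ[X]}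
    (hp : p ∈ rootsInDisc n r) :
    IsGreatest (normValues H ρ f p) (maxNorm H ρ f p) := by
  have hprop : ProperSpace (H →L[ℂ] H) := properHS H
  have hone := norm_one_le H
  have hdun := continuousOn_dun (A := H →L[ℂ] H) hf n hr0.le hr1 hρ hρ1
  have e : normValues H ρ f p = (fun T => ‖dun ρ f T‖) '' contractionsKilledBy H p := by
    ext x
    constructor
    · rintro ⟨T, hT, rfl⟩
      exact ⟨T, hT, rfl⟩
    · rintro ⟨T, hT, rfl⟩
      exact ⟨T, hT, rfl⟩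
  have hcomp : IsCompact (contractionsKilledBy H p) := isCompact_killed p
  have hne : (contractionsKilledBy H p).Nonempty := by
    obtain ⟨a, ha⟩ := exists_root_of_mem hn hp.1
    exact ⟨a • 1, smul_one_killed hone ((hp.2 a ha).trans hr1.le) ha⟩
  unfold maxNorm
  rw [e]
  apply IsCompact.isGreatest_sSup
  · apply hcomp.image_of_continuousOn
    refine ContinuousOn.norm (hdun.mono ?_)
    rintro T ⟨h1, h2⟩
    exact ⟨p.roots, killed_of_mem hp.1 hp.2 hone h1 h2⟩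
  · exact hne.image _

theorem main [FiniteDimensional ℂ H] (n : ℕ) (hH : Module.finrank ℂ H = n) (hn : 1 ≤ n) (r ρ : ℝ) (hr0 : 0 < r) (hr1 : r < 1) (hρ : r < ρ) (hρ1 : ρ < 1)
    (f : ℂ → ℂ) (hf : DifferentiableOn ℂ f (ball 0 1)) :
    (∀ p ∈ rootsInDisc n r, IsGreatest (normValues H ρ f p) (maxNorm H ρ f p)) ∧
    ∃ a : ℂ, ‖a‖ = r ∧ IsWorst H n r ρ f ((X - C a) ^ n) := by
  have hG := fun p (hp : p ∈ rootsInDisc n r) => isGreatest_normValues H n hn hr0 hr1 hρ hρ1 hf hp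
  refine ⟨hG, ?_⟩
  obtain ⟨a, T₀, ha, hT₀, hmax⟩ := core H n hH hn hr0 hr1 hρ hρ1 hf
  have hmem : (X - C a) ^ n ∈ rootsInDisc n r := by
    refine ⟨?_, ?_⟩
    · rw [degree_pow, degree_X_sub_C]
      simp
    · intro z hz
      have h : z = a ∧ ¬ n = 0 := by simpa [sub_eq_zero] using hz
      rw [h.1, ha]
  refine ⟨a, ha, hmem, ?_⟩
  intro q hq
  obtain ⟨⟨T, hT, hTe⟩, -⟩ := hG q hq
  rw [hTe]
  have h1 : ‖dun ρ f T‖ ≤ ‖dun ρ f T₀‖ :=
    hmax q.roots T (killed_of_mem hq.1 hq.2 (norm_one_le H) hT.1 hT.2)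
  refine le_trans h1 ((hG _ hmem).2 ⟨T₀, ⟨hT₀.norm_le, ?_⟩, rfl⟩)
  have := hT₀.killed
  rwa [pp_replicate] at this

end Pool.Agent.Lib.MP_a1a577_an
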