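import Pool.Agent.Lib.MP_a1a577_an.Reverse

set_option autoImplicit false

namespace Pool.Agent.Lib.MP_a1a577_an

open Complex Metric Polynomial
open scoped ComplexConjugate InnerProductSpace

/-- Swap of a circle average and an interval integral. -/
lemma av_integral_swap (W : ℝ → ℂ → ℝ) (F : ℂ → ℝ) (hF : Continuous F)
    (hW : Continuous (fun p : ℝ × ℝ => W p.1 (circleMap 0 1 p.2))) (a b : ℝ) :
    av (fun z => (∫ s in a..b, W s z) * F z) = ∫ s in a..b, av (fun z => W s z * F z) := by
  unfold av Real.circleAverage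
  rw [intervalIntegral.integral_smul]
  congr 1
  have h1 : (fun θ : ℝ => (∫ s in a..b, W s (circleMap 0 1 θ)) * F (circleMap 0 1 θ))
      = fun θ => ∫ s in a..b, W s (circleMap 0 1 θ) * F (circleMap 0 1 θ) := by
    ext θ
    rw [intervalIntegral.integral_mul_const]
  rw [h1]
  rw [MeasureTheory.intervalIntegral_intervalIntegral_swap]
  have hc : Continuous (Function.uncurry fun (θ : ℝ) (s : ℝ) =>
      W s (circleMap 0 1 θ) * F (circleMap 0 1 θ)) := by
    have h2 : Continuous (fun p : ℝ × ℝ => W p.2 (circleMap 0 1 p.1)) :=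
      hW.comp continuous_swap
    have h3 : Continuous (fun p : ℝ × ℝ => F (circleMap 0 1 p.1)) :=
      hF.comp ((continuous_circleMap 0 1).comp continuous_fst)
    exact h2.mul h3
  have hint := hc.continuousOn.integrableOn_compact
    (μ := MeasureTheory.volume) ((isCompact_uIcc (a := (0:ℝ)) (b := 2 * Real.pi)).prod
      (isCompact_uIcc (a := a) (b := b)))
  exact hint.mono_set (Set.prod_mono Set.uIoc_subset_uIcc Set.uIoc_subset_uIcc)

lemma continuous_av (W : ℝ → ℂ → ℝ) (F : ℂ → ℝ) (hF : Continuous F)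
    (hW : Continuous (fun p : ℝ × ℝ => W p.1 (circleMap 0 1 p.2))) :
    Continuous fun s => av (fun z => W s z * F z) := by
  unfold av Real.circleAverage
  simp only [smul_eq_mul]
  apply continuous_const.mul
  apply intervalIntegral.continuous_parametric_intervalIntegral_of_continuous'
  exact hW.mul (hF.comp ((continuous_circleMap 0 1).comp continuous_snd))

lemma continuousOn_slice (W : ℝ → ℂ → ℝ)
    (hW : Continuous (fun p : ℝ × ℝ => W p.1 (circleMap 0 1 p.2))) (s : ℝ) (F : ℂ → ℝ)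
    (hF : Continuous F) : CircleIntegrable (fun z => W s z * F z) 0 1 := by
  apply Continuous.intervalIntegrable
  exact (hW.comp (Continuous.prodMk continuous_const continuous_id)).mul
    (hF.comp (continuous_circleMap 0 1))

/-- Mixture lemma with a quantitative gain. -/
theorem pos_mix {M δ κ : ℝ} {g : ℂ[X]} {n : ℕ} {w : ℂ → ℝ} {W : ℝ → ℂ → ℝ} {a b c d : ℝ}
    (hac : a ≤ c) (hcd : c ≤ d) (hdb : d ≤ b) (hδ : 0 ≤ δ)
    (hW : Continuous (fun p : ℝ × ℝ => W p.1 (circleMap 0 1 p.2)))
    (hwc : ContinuousOn w (sphere 0 1))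
    (hw : ∀ z, ‖z‖ = 1 → w z = ∫ s in a..b, W s z)
    (hpos : ∀ s ∈ Set.Icc a b, Pos M g n (W s))
    (hposs : ∀ s ∈ Set.Icc c d, Pos (M - δ) g n (W s))
    (hWk : ∀ s ∈ Set.Icc c d, ∀ z, ‖z‖ = 1 → κ * w z ≤ W s z) :
    Pos (M - δ * κ * (d - c)) g n w := by
  intro q₁ q₂ hq₁ hq₂
  set A : ℂ → ℝ := fun z => ‖q₁.eval z‖ ^ 2 + ‖q₂.eval z‖ ^ 2 with hA
  set B : ℂ → ℝ := fun z => (g.eval (conj z) * (conj (q₁.eval z) * q₂.eval z)).re with hB
  have hAc : Continuous A := (q₁.continuous.norm.pow 2).add (q₂.continuous.norm.pow 2)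
  have hBc : Continuous B := Complex.continuous_re.comp
    ((g.continuous.comp Complex.continuous_conj).mul
      ((Complex.continuous_conj.comp q₁.continuous).mul q₂.continuous))
  have hFc : ∀ M' : ℝ, Continuous (fun z => M' / 2 * A z - B z) := fun M' =>
    (continuous_const.mul hAc).sub hBc
  have hA0 : ∀ z, 0 ≤ A z := fun z => by positivity
  set h : ℝ → ℝ := fun s => av (fun z => W s z * (M / 2 * A z - B z)) with hh
  have hhc : Continuous h := continuous_av W _ (hFc M) hW
  have hh0 : ∀ s ∈ Set.Icc a b, 0 ≤ h s := fun s hs => hpos s hs q₁ q₂ hq₁ hq₂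
  set α := av (fun z => w z * A z) with hα
  have hh1 : ∀ s ∈ Set.Icc c d, δ / 2 * (κ * α) ≤ h s := by
    intro s hs
    have e1 : (fun z => W s z * (M / 2 * A z - B z))
        = fun z => W s z * ((M - δ) / 2 * A z - B z) + δ / 2 * (W s z * A z) := by
      ext z; ring
    have e2 : h s = av (fun z => W s z * ((M - δ) / 2 * A z - B z))
        + δ / 2 * av (fun z => W s z * A z) := by
      rw [← av_real_const_mul, hh]
      simp only
      rw [e1]
      exact Real.circleAverage_fun_add (continuousOn_slice W hW s _ (hFc _))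
        ((continuousOn_slice W hW s A hAc).const_fun_smul (a := δ / 2))
    have e3 : 0 ≤ av (fun z => W s z * ((M - δ) / 2 * A z - B z)) :=
      hposs s hs q₁ q₂ hq₁ hq₂
    have e4 : κ * α ≤ av (fun z => W s z * A z) := by
      rw [hα, ← av_real_const_mul]
      apply Real.circleAverage_mono
      · exact ci (continuousOn_const.mul (hwc.mul hAc.continuousOn))
      · exact continuousOn_slice W hW s A hAc
      · intro z hz
        have hz1 : ‖z‖ = 1 := by simpa using hz
        have := hWk s hs z hz1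
        have := mul_le_mul_of_nonneg_right this (hA0 z)
        linarith
    have : δ / 2 * (κ * α) ≤ δ / 2 * av (fun z => W s z * A z) := by
      apply mul_le_mul_of_nonneg_left e4; positivity
    linarith
  have e5 : av (fun z => w z * (M / 2 * A z - B z)) = ∫ s in a..b, h s := by
    rw [hh, ← av_integral_swap W _ (hFc M) hW a b]
    apply av_congr
    intro z hz
    rw [hw z hz]
  have e6 : (d - c) * (δ / 2 * (κ * α)) ≤ ∫ s in a..b, h s := by
    have i1 : IntervalIntegrable h MeasureTheory.volume a c := hhc.intervalIntegrable _ _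
    have i2 : IntervalIntegrable h MeasureTheory.volume c d := hhc.intervalIntegrable _ _
    have i3 : IntervalIntegrable h MeasureTheory.volume d b := hhc.intervalIntegrable _ _
    rw [← intervalIntegral.integral_add_adjacent_intervals (i1.trans i2) i3,
      ← intervalIntegral.integral_add_adjacent_intervals i1 i2]
    have j1 : 0 ≤ ∫ s in a..c, h s := intervalIntegral.integral_nonneg hac fun s hs =>
      hh0 s ⟨hs.1, by linarith [hs.2]⟩
    have j3 : 0 ≤ ∫ s in d..b, h s := intervalIntegral.integral_nonneg hdb fun s hs =>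
      hh0 s ⟨by linarith [hs.1], hs.2⟩
    have j2 : ∫ _s in c..d, (δ / 2 * (κ * α)) ≤ ∫ s in c..d, h s :=
      intervalIntegral.integral_mono_on hcd (by simp) i2 hh1
    rw [intervalIntegral.integral_const, smul_eq_mul] at j2
    linarith
  have e7 : av (fun z => w z * ((M - δ * κ * (d - c)) / 2 * A z - B z))
      = av (fun z => w z * (M / 2 * A z - B z)) - (δ * κ * (d - c)) / 2 * α := by
    rw [hα, ← av_real_const_mul, ← av_sub]
    · congr 1; ext z; ring
    · exact hwc.mul (hFc M).continuousOn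
    · exact continuousOn_const.mul (hwc.mul hAc.continuousOn)
  change 0 ≤ av (fun z => w z * ((M - δ * κ * (d - c)) / 2 * A z - B z))
  rw [e7, e5]
  linarith

/-- Plain mixture lemma. -/
theorem pos_mix' {M : ℝ} {g : ℂ[X]} {n : ℕ} {w : ℂ → ℝ} {W : ℝ → ℂ → ℝ} {a b : ℝ}
    (hab : a ≤ b)
    (hW : Continuous (fun p : ℝ × ℝ => W p.1 (circleMap 0 1 p.2)))
    (hw : ∀ z, ‖z‖ = 1 → w z = ∫ s in a..b, W s z)
    (hpos : ∀ s ∈ Set.Icc a b, Pos M g n (W s)) : Pos M g n w := by
  intro q₁ q₂ hq₁ hq₂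
  set F : ℂ → ℝ := fun z => M / 2 * (‖q₁.eval z‖ ^ 2 + ‖q₂.eval z‖ ^ 2)
    - (g.eval (conj z) * (conj (q₁.eval z) * q₂.eval z)).re with hF
  have hFc : Continuous F := (continuous_const.mul
    ((q₁.continuous.norm.pow 2).add (q₂.continuous.norm.pow 2))).sub
    (Complex.continuous_re.comp
    ((g.continuous.comp Complex.continuous_conj).mul
      ((Complex.continuous_conj.comp q₁.continuous).mul q₂.continuous)))
  have e5 : av (fun z => w z * F z) = ∫ s in a..b, av (fun z => W s z * F z) := by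
    rw [← av_integral_swap W _ hFc hW a b]
    apply av_congr
    intro z hz
    rw [hw z hz]
  rw [e5]
  exact intervalIntegral.integral_nonneg hab fun s hs => hpos s hs q₁ q₂ hq₁ hq₂

lemma Pos.smul {M : ℝ} {g : ℂ[X]} {n : ℕ} {w : ℂ → ℝ} (h : Pos M g n w) {k : ℝ} (hk : 0 ≤ k) :
    Pos M g n (fun z => k * w z) := by
  intro q₁ q₂ hq₁ hq₂
  have := mul_nonneg hk (h q₁ q₂ hq₁ hq₂)
  rw [← av_real_const_mul] at this
  have h3 : (fun z => k * w z * (M / 2 * (‖q₁.eval z‖ ^ 2 + ‖q₂.eval z‖ ^ 2)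
      - (g.eval (conj z) * (conj (q₁.eval z) * q₂.eval z)).re))
      = fun z => k * (w z * (M / 2 * (‖q₁.eval z‖ ^ 2 + ‖q₂.eval z‖ ^ 2)
      - (g.eval (conj z) * (conj (q₁.eval z) * q₂.eval z)).re)) := by
    ext z; ring
  rw [h3]; exact this

lemma Pos.congr {M : ℝ} {g : ℂ[X]} {n : ℕ} {w w' : ℂ → ℝ} (h : Pos M g n w)
    (hw : ∀ z, ‖z‖ = 1 → w z = w' z) : Pos M g n w' := by
  intro q₁ q₂ hq₁ hq₂
  have h1 := h q₁ q₂ hq₁ hq₂
  rw [av_congr (G := fun z => w' z * (M / 2 * (‖q₁.eval z‖ ^ 2 + ‖q₂.eval z‖ ^ 2)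
      - (g.eval (conj z) * (conj (q₁.eval z) * q₂.eval z)).re))] at h1
  · exact h1
  · intro z hz
    rw [hw z hz]

end Pool.Agent.Lib.MP_a1a577_an
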