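import Pool.Agent.Lib.MP_a1a577_an.Circle

set_option autoImplicit false

namespace Pool.Agent.Lib.MP_a1a577_an

open Complex Metric Polynomial
open scoped ComplexConjugate InnerProductSpace

variable {H : Type*} [NormedAddCommGroup H] [InnerProductSpace ℂ H] [FiniteDimensional ℂ H]

omit [FiniteDimensional ℂ H] in
/-- Polynomial identity `tp s z = (1 - z T) N(z) + z^n (pp s)(T)`. -/
lemma exists_coeffs (T : H →L[ℂ] H) (s : Multiset ℂ) :
    ∃ c : ℕ → (H →L[ℂ] H), ∀ z : ℂ, (tp s z) • (1 : H →L[ℂ] H) =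
      (1 - z • T) * (∑ i ∈ Finset.range (Multiset.card s), z ^ i • c i)
        + z ^ (Multiset.card s) • aeval T (pp s) := by
  induction s using Multiset.induction_on with
  | empty => exact ⟨fun _ => 0, fun z => by simp [tp_zero', pp_zero]⟩
  | cons b s ih =>
    obtain ⟨c, hc⟩ := ih
    set n := Multiset.card s with hn
    refine ⟨fun i => (if i < n then c i else 0) - b • (if 1 ≤ i then (if i - 1 < n then c (i-1) else 0) else 0)
      + (if i = n then aeval T (pp s) else 0), fun z => ?_⟩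
    have key : (∑ i ∈ Finset.range (Multiset.card (b ::ₘ s)), z ^ i •
        ((if i < n then c i else 0) - b • (if 1 ≤ i then (if i - 1 < n then c (i-1) else 0) else 0)
      + (if i = n then aeval T (pp s) else 0)))
      = (1 - b * z) • (∑ i ∈ Finset.range n, z ^ i • c i) + z ^ n • aeval T (pp s) := by
      rw [Multiset.card_cons, ← hn]
      have e1 : (∑ i ∈ Finset.range (n+1), z ^ i • (if i < n then c i else 0))
          = ∑ i ∈ Finset.range n, z ^ i • c i := by
        rw [Finset.sum_range_succ]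
        simp only [lt_irrefl, if_false, smul_zero, add_zero]
        apply Finset.sum_congr rfl
        intro i hi
        rw [if_pos (Finset.mem_range.mp hi)]
      have e2 : (∑ i ∈ Finset.range (n+1), z ^ i • (b • (if 1 ≤ i then (if i - 1 < n then c (i-1) else 0) else 0)))
          = (b * z) • ∑ i ∈ Finset.range n, z ^ i • c i := by
        rw [Finset.sum_range_succ']
        simp only [Nat.add_sub_cancel]
        rw [Finset.smul_sum]
        simp only [nonpos_iff_eq_zero, one_ne_zero, if_false, smul_zero, add_zero]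
        apply Finset.sum_congr rfl
        intro i hi
        rw [if_pos (by omega), if_pos (Finset.mem_range.mp hi), smul_smul, smul_smul]
        congr 1; ring
      have e3 : (∑ i ∈ Finset.range (n+1), z ^ i • (if i = n then aeval T (pp s) else 0))
          = z ^ n • aeval T (pp s) := by
        rw [Finset.sum_range_succ]
        simp only [if_true]
        rw [Finset.sum_eq_zero, zero_add]
        intro i hi
        rw [if_neg (by have := Finset.mem_range.mp hi; omega), smul_zero]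
      simp only [smul_add, smul_sub, Finset.sum_add_distrib, Finset.sum_sub_distrib]
      rw [e1, e2, e3, sub_smul, one_smul]
    rw [key, tp_cons, pp_cons, Multiset.card_cons, ← hn]
    have h := hc z
    have h2 : ((1 - b * z) * tp s z) • (1 : H →L[ℂ] H) = (1 - b*z) • ((1 - z • T) * (∑ i ∈ Finset.range n, z ^ i • c i)
        + z ^ n • aeval T (pp s)) := by
      rw [← h, smul_smul]
    rw [h2]
    simp only [map_mul, map_sub, aeval_X, aeval_C]
    have h3 : (algebraMap ℂ (H →L[ℂ] H)) b = b • 1 := by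
      rw [Algebra.algebraMap_eq_smul_one]
    rw [h3]
    generalize (∑ i ∈ Finset.range n, z ^ i • c i) = N
    generalize (aeval T) (pp s) = P
    have e1 : (1 - z • T) * N = N - z • (T * N) := by
      rw [sub_mul, one_mul, smul_mul_assoc]
    have e2 : (1 - z • T) * ((1 - b * z) • N + z ^ n • P)
        = (1 - b * z) • (N - z • (T * N)) + z ^ n • (P - z • (T * P)) := by
      rw [mul_add, mul_smul_comm, mul_smul_comm, e1, sub_mul, one_mul, smul_mul_assoc]
    have e3 : (T - b • (1 : H →L[ℂ] H)) * P = T * P - b • P := by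
      rw [sub_mul, smul_mul_assoc, one_mul]
    rw [e1, e2, e3, pow_succ]
    module

omit [FiniteDimensional ℂ H] in
/-- Data of the functional model. -/
lemma exists_resolvent (T : H →L[ℂ] H) (s : Multiset ℂ) (hp : aeval T (pp s) = 0) :
    ∃ c : ℕ → (H →L[ℂ] H), ∀ z : ℂ, (tp s z) • (1 : H →L[ℂ] H) =
      (1 - z • T) * (∑ i ∈ Finset.range (Multiset.card s), z ^ i • c i) := by
  obtain ⟨c, hc⟩ := exists_coeffs T s
  refine ⟨c, fun z => ?_⟩
  rw [hc z, hp]; simp

/-- A square root of the defect form of a contraction. -/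
lemma exists_defect (T : H →L[ℂ] H) (hT : ‖T‖ ≤ 1) :
    ∃ B : H →L[ℂ] H, ∀ u v : H, ⟪u, v⟫_ℂ - ⟪T u, T v⟫_ℂ = ⟪B u, B v⟫_ℂ := by
  have key : ∀ u v : H, ⟪u, (1 - star T * T) v⟫_ℂ = ⟪u, v⟫_ℂ - ⟪T u, T v⟫_ℂ := by
    intro u v
    simp only [_root_.sub_apply, one_apply_eq_self,
      mul_apply_eq_comp, inner_sub_right, ContinuousLinearMap.star_eq_adjoint,
      ContinuousLinearMap.adjoint_inner_right]
  have h0 : 0 ≤ (1 - star T * T) := by
    rw [ContinuousLinearMap.nonneg_iff_isPositive, ContinuousLinearMap.isPositive_def']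
    constructor
    · exact (IsSelfAdjoint.one _).sub (IsSelfAdjoint.star_mul_self T)
    · intro x
      rw [ContinuousLinearMap.reApplyInnerSelf_apply, ← inner_conj_symm, key, RCLike.conj_re]
      have h1 : ‖T x‖ ≤ ‖x‖ := by
        calc ‖T x‖ ≤ ‖T‖ * ‖x‖ := T.le_opNorm x
          _ ≤ 1 * ‖x‖ := by gcongr
          _ = ‖x‖ := one_mul _
      rw [inner_self_eq_norm_sq_to_K, inner_self_eq_norm_sq_to_K]
      have : 0 ≤ ‖x‖ ^ 2 - ‖T x‖ ^ 2 := by nlinarith [norm_nonneg x, norm_nonneg (T x)]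
      simpa [← Complex.ofReal_pow] using this
  obtain ⟨B, hB⟩ := CStarAlgebra.nonneg_iff_eq_star_mul_self.mp h0
  refine ⟨B, fun u v => ?_⟩
  rw [← key, hB]
  simp only [mul_apply_eq_comp, ContinuousLinearMap.star_eq_adjoint,
      ContinuousLinearMap.adjoint_inner_right]

lemma sphere_sub {F : ℂ → ℂ} (hF : DiffContOnCl ℂ F (ball 0 1)) :
    ContinuousOn F (sphere 0 1) := by
  have h := hF.continuousOn
  rw [closure_ball (0:ℂ) one_ne_zero] at h
  exact h.mono sphere_subset_closedBall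

lemma dcc_mul {F G : ℂ → ℂ} (hF : DiffContOnCl ℂ F (ball 0 1)) (hG : DiffContOnCl ℂ G (ball 0 1)) :
    DiffContOnCl ℂ (fun z => F z * G z) (ball 0 1) :=
  ⟨hF.differentiableOn.mul hG.differentiableOn, hF.continuousOn.mul hG.continuousOn⟩

lemma av_conj_pow (k : ℕ) (hk : k ≠ 0) : av (fun z : ℂ => conj z ^ k) = 0 := by
  have h : DiffContOnCl ℂ (fun z : ℂ => z ^ k) (ball 0 1) :=
    (differentiable_id.pow k).diffContOnCl
  have h1 : av (fun z : ℂ => conj (z ^ k)) = 0 := by
    rw [av_conj (sphere_sub h), av_analytic h]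
    simp [hk]
  simpa using h1

lemma continuousOn_conj_pow (k : ℕ) : ContinuousOn (fun z : ℂ => conj z ^ k) (sphere 0 1) :=
  ((Complex.continuous_conj).pow k).continuousOn

lemma conj_mul_self {z : ℂ} (hz : ‖z‖ = 1) : conj z * z = 1 := by
  rw [mul_comm, Complex.mul_conj, Complex.normSq_eq_norm_sq, hz]; simp

lemma av_pow_left (T : H →L[ℂ] H) (U : ℂ → H →L[ℂ] H)
    (hU : ∀ z, ‖z‖ = 1 → U z = 1 + z • (T * U z)) (hU0 : U 0 = 1)
    (hUd : ∀ x y, DiffContOnCl ℂ (fun z => ⟪x, U z y⟫_ℂ) (ball 0 1)) (m : ℕ) (y : H) :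
    ∀ x : H, av (fun z => conj z ^ m * ⟪x, U z y⟫_ℂ) = ⟪x, (T ^ m) y⟫_ℂ := by
  induction m with
  | zero =>
    intro x
    simp only [pow_zero, one_mul]
    rw [av_analytic (hUd x y), hU0]
  | succ m ih =>
    intro x
    have h1 : ∀ z : ℂ, ‖z‖ = 1 → conj z ^ (m+1) * ⟪x, U z y⟫_ℂ
        = conj z ^ (m+1) * ⟪x, y⟫_ℂ + conj z ^ m * ⟪star T x, U z y⟫_ℂ := by
      intro z hz
      have h2 : ⟪x, U z y⟫_ℂ = ⟪x, y⟫_ℂ + z * ⟪star T x, U z y⟫_ℂ := by
        conv_lhs => rw [hU z hz]
        simp only [_root_.add_apply, one_apply_eq_self, _root_.smul_apply, mul_apply_eq_comp,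
          inner_add_right, inner_smul_right, ContinuousLinearMap.star_eq_adjoint,
          ContinuousLinearMap.adjoint_inner_left]
      rw [h2, pow_succ]
      linear_combination (conj z ^ m * ⟪star T x, U z y⟫_ℂ) * conj_mul_self hz
    rw [av_congr h1, av_add, ih]
    · have h3 : av (fun z : ℂ => conj z ^ (m+1) * ⟪x, y⟫_ℂ) = 0 := by
        have : (fun z : ℂ => conj z ^ (m+1) * ⟪x, y⟫_ℂ) = fun z => ⟪x, y⟫_ℂ * conj z ^ (m+1) := by
          ext z; ring
        rw [this, av_const_mul, av_conj_pow _ (Nat.succ_ne_zero m), mul_zero]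
      rw [h3, zero_add, ContinuousLinearMap.star_eq_adjoint, ContinuousLinearMap.adjoint_inner_left,
        pow_succ', mul_apply_eq_comp]
    · exact (continuousOn_conj_pow _).mul continuousOn_const
    · exact (continuousOn_conj_pow _).mul (sphere_sub (hUd _ _))

omit [FiniteDimensional ℂ H] in
lemma av_pow_right (U : ℂ → H →L[ℂ] H) (hU0 : U 0 = 1)
    (hUd : ∀ x y, DiffContOnCl ℂ (fun z => ⟪x, U z y⟫_ℂ) (ball 0 1)) (m : ℕ) (x y : H) :
    av (fun z => conj z ^ m * ⟪U z x, y⟫_ℂ) = if m = 0 then ⟪x, y⟫_ℂ else 0 := by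
  have hd : DiffContOnCl ℂ (fun z : ℂ => z ^ m * ⟪y, U z x⟫_ℂ) (ball 0 1) :=
    dcc_mul (F := fun z => z ^ m) ((differentiable_id.pow m).diffContOnCl) (hUd y x)
  have h1 : (fun z => conj z ^ m * ⟪U z x, y⟫_ℂ) = fun z => conj (z ^ m * ⟪y, U z x⟫_ℂ) := by
    ext z
    rw [map_mul, map_pow, inner_conj_symm]
  rw [h1, av_conj (sphere_sub hd), av_analytic hd, hU0]
  by_cases hm : m = 0
  · simp [hm]
  · simp [hm]

lemma av_kernel (T : H →L[ℂ] H) (U : ℂ → H →L[ℂ] H)
    (hU : ∀ z, ‖z‖ = 1 → U z = 1 + z • (T * U z)) (hU0 : U 0 = 1)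
    (hUd : ∀ x y, DiffContOnCl ℂ (fun z => ⟪x, U z y⟫_ℂ) (ball 0 1)) (g : ℂ[X]) (x y : H) :
    av (fun z => g.eval (conj z) * (⟪U z x, y⟫_ℂ + ⟪x, U z y⟫_ℂ - ⟪x, y⟫_ℂ))
      = ⟪x, (aeval T g) y⟫_ℂ := by
  have c1 : ContinuousOn (fun z => ⟪x, U z y⟫_ℂ) (sphere 0 1) := sphere_sub (hUd x y)
  have c2 : ContinuousOn (fun z => ⟪U z x, y⟫_ℂ) (sphere 0 1) := by
    have : (fun z => ⟪U z x, y⟫_ℂ) = fun z => conj ⟪y, U z x⟫_ℂ := by
      ext z; rw [inner_conj_symm]
    rw [this]
    exact Complex.continuous_conj.comp_continuousOn (sphere_sub (hUd y x))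
  have c3 : ContinuousOn (fun z => ⟪U z x, y⟫_ℂ + ⟪x, U z y⟫_ℂ - ⟪x, y⟫_ℂ) (sphere 0 1) :=
    (c2.add c1).sub continuousOn_const
  induction g using Polynomial.induction_on' with
  | add p q hp hq =>
    have : (fun z => (p+q).eval (conj z) * (⟪U z x, y⟫_ℂ + ⟪x, U z y⟫_ℂ - ⟪x, y⟫_ℂ))
      = fun z => p.eval (conj z) * (⟪U z x, y⟫_ℂ + ⟪x, U z y⟫_ℂ - ⟪x, y⟫_ℂ)
        + q.eval (conj z) * (⟪U z x, y⟫_ℂ + ⟪x, U z y⟫_ℂ - ⟪x, y⟫_ℂ) := by
      ext z; rw [eval_add]; ring
    rw [this, av_add, hp, hq, map_add, _root_.add_apply, inner_add_right]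
    · exact (p.continuous.comp Complex.continuous_conj).continuousOn.mul c3
    · exact (q.continuous.comp Complex.continuous_conj).continuousOn.mul c3
  | monomial m a =>
    have : (fun z => (monomial m a).eval (conj z) * (⟪U z x, y⟫_ℂ + ⟪x, U z y⟫_ℂ - ⟪x, y⟫_ℂ))
      = fun z => a * ((conj z ^ m * ⟪U z x, y⟫_ℂ + conj z ^ m * ⟪x, U z y⟫_ℂ)
        - conj z ^ m * ⟪x, y⟫_ℂ) := by
      ext z; rw [eval_monomial]; ring
    rw [this, av_const_mul, av_sub, av_add, av_pow_left T U hU hU0 hUd, av_pow_right U hU0 hUd]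
    · have h3 : av (fun z : ℂ => conj z ^ m * ⟪x, y⟫_ℂ) = if m = 0 then ⟪x, y⟫_ℂ else 0 := by
        have : (fun z : ℂ => conj z ^ m * ⟪x, y⟫_ℂ) = fun z => ⟪x, y⟫_ℂ * conj z ^ m := by
          ext z; ring
        rw [this, av_const_mul]
        by_cases hm : m = 0
        · simp [hm, av_const]
        · rw [av_conj_pow _ hm]; simp [hm]
      rw [h3, aeval_monomial, mul_apply_eq_comp, Algebra.algebraMap_eq_smul_one, _root_.smul_apply,
        one_apply_eq_self, inner_smul_right]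
      ring
    · exact (continuousOn_conj_pow _).mul c2
    · exact (continuousOn_conj_pow _).mul c1
    · exact ((continuousOn_conj_pow _).mul c2).add ((continuousOn_conj_pow _).mul c1)
    · exact (continuousOn_conj_pow _).mul continuousOn_const

omit [FiniteDimensional ℂ H] in
lemma opNorm_le_of_re (A : H →L[ℂ] H) (M : ℝ) (hM : 0 ≤ M)
    (h : ∀ x y : H, (⟪x, A y⟫_ℂ).re ≤ M / 2 * (‖x‖ ^ 2 + ‖y‖ ^ 2)) : ‖A‖ ≤ M := by
  apply ContinuousLinearMap.opNorm_le_bound _ hM
  intro y
  by_cases hy : ‖A y‖ = 0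
  · rw [hy]; positivity
  have hA : 0 < ‖A y‖ := lt_of_le_of_ne (norm_nonneg _) (Ne.symm hy)
  have hy0 : 0 < ‖y‖ := by
    rw [norm_pos_iff]
    rintro rfl
    simp at hy
  have h1 := h (((‖y‖ / ‖A y‖ : ℝ) : ℂ) • A y) y
  rw [inner_smul_left, inner_self_eq_norm_sq_to_K, norm_smul] at h1
  have h2 : (conj ((‖y‖ / ‖A y‖ : ℝ) : ℂ) * ((‖A y‖ : ℝ) : ℂ) ^ 2).re = ‖y‖ * ‖A y‖ := by
    rw [Complex.conj_ofReal, ← Complex.ofReal_pow, ← Complex.ofReal_mul, Complex.ofReal_re]
    field_simp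
  have h3 : ‖((‖y‖ / ‖A y‖ : ℝ) : ℂ)‖ * ‖A y‖ = ‖y‖ := by
    rw [Complex.norm_real, Real.norm_of_nonneg (by positivity)]
    field_simp
  rw [h3] at h1
  have h4 : ‖y‖ * ‖A y‖ ≤ M / 2 * (‖y‖ ^ 2 + ‖y‖ ^ 2) := by
    rw [← h2]; exact_mod_cast h1
  nlinarith

lemma degree_sum_C_mul_X_pow_lt (n : ℕ) (a : ℕ → ℂ) :
    (∑ i ∈ Finset.range n, C (a i) * X ^ i : ℂ[X]).degree < n := by
  rw [← Polynomial.mem_degreeLT]
  apply Submodule.sum_mem
  intro i hi
  rw [Polynomial.mem_degreeLT]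
  exact lt_of_le_of_lt (degree_C_mul_X_pow_le i (a i)) (by exact_mod_cast Finset.mem_range.mp hi)

theorem norm_aeval_le_of_pos (T : H →L[ℂ] H) (hT : ‖T‖ ≤ 1) (s : Multiset ℂ)
    (hs : ∀ b ∈ s, ‖b‖ < 1) (hp : aeval T (pp s) = 0) (g : ℂ[X]) (M : ℝ) (hM : 0 ≤ M)
    (hpos : Pos M g (Multiset.card s) (wt s)) : ‖aeval T g‖ ≤ M := by
  obtain ⟨c, hc⟩ := exists_resolvent T s hp
  obtain ⟨B, hB⟩ := exists_defect T hT
  set n := Multiset.card s with hn
  set N : ℂ → H →L[ℂ] H := fun z => ∑ i ∈ Finset.range n, z ^ i • c i with hN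
  set U : ℂ → H →L[ℂ] H := fun z => (tp s z)⁻¹ • N z with hUdef
  have hU : ∀ z, ‖z‖ ≤ 1 → U z = 1 + z • (T * U z) := by
    intro z hz
    have h0 := tp_ne_zero hs hz
    have h1 := hc z
    have h2 : (1 - z • T) * U z = 1 := by
      simp only [hUdef, mul_smul_comm]
      rw [← h1, smul_smul, inv_mul_cancel₀ h0, one_smul]
    rw [sub_mul, one_mul, smul_mul_assoc] at h2
    rw [← h2]; abel
  have hU0 : U 0 = 1 := by
    have := hU 0 (by simp)
    simpa using this
  have hNxy : ∀ x y z, ⟪x, N z y⟫_ℂ = ∑ i ∈ Finset.range n, ⟪x, c i y⟫_ℂ * z ^ i := by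
    intro x y z
    simp only [hN, _root_.sum_apply, _root_.smul_apply, inner_sum, inner_smul_right]
    apply Finset.sum_congr rfl
    intro i _; ring
  have hUd : ∀ x y, DiffContOnCl ℂ (fun z => ⟪x, U z y⟫_ℂ) (ball 0 1) := by
    intro x y
    have h1 : (fun z => ⟪x, U z y⟫_ℂ)
        = fun z => (tp s z)⁻¹ * ∑ i ∈ Finset.range n, ⟪x, c i y⟫_ℂ * z ^ i := by
      ext z
      rw [← hNxy]
      simp only [hUdef, _root_.smul_apply, inner_smul_right]
    have h2 : DifferentiableOn ℂ (fun z => ⟪x, U z y⟫_ℂ) {z | tp s z ≠ 0} := by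
      rw [h1]
      intro z hz
      apply DifferentiableAt.differentiableWithinAt
      apply DifferentiableAt.mul
      · exact ((differentiable_tp s) z).inv hz
      · have : Differentiable ℂ (fun z : ℂ => ∑ i ∈ Finset.range n, ⟪x, c i y⟫_ℂ * z ^ i) := by
          fun_prop
        exact this z
    exact h2.diffContOnCl_ball (fun z hz => tp_ne_zero hs (by simpa using hz))
  set K : H → H → ℂ → ℂ := fun x y z => ⟪U z x, y⟫_ℂ + ⟪x, U z y⟫_ℂ - ⟪x, y⟫_ℂ with hK
  have c1 : ∀ x y, ContinuousOn (fun z => ⟪x, U z y⟫_ℂ) (sphere 0 1) := fun x y =>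
    sphere_sub (hUd x y)
  have c2 : ∀ x y, ContinuousOn (fun z => ⟪U z x, y⟫_ℂ) (sphere 0 1) := by
    intro x y
    have : (fun z => ⟪U z x, y⟫_ℂ) = fun z => conj ⟪y, U z x⟫_ℂ := by
      ext z; rw [inner_conj_symm]
    rw [this]
    exact Complex.continuous_conj.comp_continuousOn (sphere_sub (hUd y x))
  have c3 : ∀ x y, ContinuousOn (K x y) (sphere 0 1) := fun x y =>
    ((c2 x y).add (c1 x y)).sub continuousOn_const
  have hKavg : ∀ x y, av (fun z => g.eval (conj z) * K x y z) = ⟪x, (aeval T g) y⟫_ℂ := fun x y =>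
    av_kernel T U (fun z hz => hU z hz.le) hU0 hUd g x y
  have hKavg1 : ∀ x y, av (K x y) = ⟪x, y⟫_ℂ := by
    intro x y
    have := av_kernel T U (fun z hz => hU z hz.le) hU0 hUd 1 x y
    simpa using this
  -- the key identity on the circle
  have hkey : ∀ x y z, ‖z‖ = 1 → ⟪B (N z x), B (N z y)⟫_ℂ = ((‖tp s z‖ ^ 2 : ℝ) : ℂ) * K x y z := by
    intro x y z hz
    have h0 := tp_ne_zero hs hz.le
    have hNU : N z = tp s z • U z := by
      simp only [hUdef]
      rw [smul_smul, mul_inv_cancel₀ h0, one_smul]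
    rw [← hB, hNU]
    simp only [_root_.smul_apply, map_smul, inner_smul_left, inner_smul_right]
    have e1 : ⟪T (U z x), T (U z y)⟫_ℂ = ⟪U z x - x, U z y - y⟫_ℂ := by
      have hx : U z x - x = z • T (U z x) := by
        conv_lhs => rw [hU z hz.le]
        simp only [_root_.add_apply, one_apply_eq_self, _root_.smul_apply, mul_apply_eq_comp]
        abel
      have hy : U z y - y = z • T (U z y) := by
        conv_lhs => rw [hU z hz.le]
        simp only [_root_.add_apply, one_apply_eq_self, _root_.smul_apply, mul_apply_eq_comp]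
        abel
      rw [hx, hy, inner_smul_left, inner_smul_right, ← mul_assoc, conj_mul_self hz, one_mul]
    have e2 : (((‖tp s z‖ ^ 2 : ℝ)) : ℂ) = conj (tp s z) * tp s z := by
      rw [← Complex.normSq_eq_conj_mul_self, Complex.normSq_eq_norm_sq]
    rw [e1, e2]
    simp only [inner_sub_left, inner_sub_right, hK]
    ring
  apply opNorm_le_of_re _ M hM
  intro x y
  let e := stdOrthonormalBasis ℂ H
  let q : H → Fin (Module.finrank ℂ H) → ℂ[X] := fun x j =>
    ∑ i ∈ Finset.range n, C ⟪e j, B (c i x)⟫_ℂ * X ^ i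
  have hqdeg : ∀ x j, (q x j).degree < n := fun x j => degree_sum_C_mul_X_pow_lt n _
  have hqev : ∀ x j z, (q x j).eval z = ⟪e j, B (N z x)⟫_ℂ := by
    intro x j z
    simp only [q, eval_finsetSum, eval_mul, eval_C, eval_pow, eval_X, hN, _root_.sum_apply,
      _root_.smul_apply, map_sum, map_smul, inner_sum, inner_smul_right]
    apply Finset.sum_congr rfl
    intro i _; ring
  have hsum : ∀ x y z, ∑ j, (conj ((q x j).eval z) * (q y j).eval z) = ⟪B (N z x), B (N z y)⟫_ℂ := by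
    intro x y z
    rw [← e.sum_inner_mul_inner]
    apply Finset.sum_congr rfl
    intro j _
    rw [hqev, hqev, inner_conj_symm]
  have hcontF : ∀ j : Fin (Module.finrank ℂ H), ContinuousOn (fun z =>
      wt s z * (M / 2 * (‖(q x j).eval z‖ ^ 2 + ‖(q y j).eval z‖ ^ 2)
      - (g.eval (conj z) * (conj ((q x j).eval z) * (q y j).eval z)).re)) (sphere 0 1) := by
    intro j
    apply (continuousOn_wt hs).mul
    apply Continuous.continuousOn
    have h1 : Continuous fun z => (q x j).eval z := (q x j).continuous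
    have h2 : Continuous fun z => (q y j).eval z := (q y j).continuous
    have h3 : Continuous fun z : ℂ => g.eval (conj z) := g.continuous.comp Complex.continuous_conj
    have h4 : Continuous fun z => conj ((q x j).eval z) := Complex.continuous_conj.comp h1
    exact (continuous_const.mul ((h1.norm.pow 2).add (h2.norm.pow 2))).sub
      (Complex.continuous_re.comp (h3.mul (h4.mul h2)))
  have h0 : 0 ≤ ∑ j, av (fun z =>
      wt s z * (M / 2 * (‖(q x j).eval z‖ ^ 2 + ‖(q y j).eval z‖ ^ 2)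
      - (g.eval (conj z) * (conj ((q x j).eval z) * (q y j).eval z)).re)) :=
    Finset.sum_nonneg fun j _ => hpos (q x j) (q y j) (hqdeg x j) (hqdeg y j)
  rw [← av_sum (fun j _ => hcontF j)] at h0
  have h1 : av (fun z => ∑ j,
      wt s z * (M / 2 * (‖(q x j).eval z‖ ^ 2 + ‖(q y j).eval z‖ ^ 2)
      - (g.eval (conj z) * (conj ((q x j).eval z) * (q y j).eval z)).re))
      = av (fun z => M / 2 * ((K x x z).re + (K y y z).re) - (g.eval (conj z) * K x y z).re) := by
    apply av_congr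
    intro z hz
    have h0 := tp_ne_zero hs hz.le
    have hw : wt s z * ‖tp s z‖ ^ 2 = 1 := by
      unfold wt
      rw [inv_mul_cancel₀]
      positivity
    have hn1 : ∀ x, ∑ j, ‖(q x j).eval z‖ ^ 2 = ‖tp s z‖ ^ 2 * (K x x z).re := by
      intro x
      have h2 := hsum x x z
      rw [hkey x x z hz] at h2
      have h3 := congrArg Complex.re h2
      rw [Complex.re_ofReal_mul] at h3
      rw [← h3, Complex.re_sum]
      apply Finset.sum_congr rfl
      intro j _
      rw [← Complex.normSq_eq_conj_mul_self, Complex.ofReal_re, Complex.normSq_eq_norm_sq]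
    have hn2 : ∑ j, (g.eval (conj z) * (conj ((q x j).eval z) * (q y j).eval z)).re
        = ‖tp s z‖ ^ 2 * (g.eval (conj z) * K x y z).re := by
      rw [← Complex.re_sum, ← Finset.mul_sum, hsum, hkey x y z hz, ← Complex.re_ofReal_mul]
      congr 1; ring
    rw [← Finset.mul_sum, Finset.sum_sub_distrib, ← Finset.mul_sum, Finset.sum_add_distrib, hn1,
      hn1, hn2]
    linear_combination (M / 2 * ((K x x z).re + (K y y z).re) - (g.eval (conj z) * K x y z).re) * hw
  rw [h1, av_sub, av_real_const_mul, av_add, av_re (c3 x x), av_re (c3 y y), av_re, hKavg, hKavg1,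
    hKavg1] at h0
  · have e1 : (⟪x, x⟫_ℂ).re = ‖x‖ ^ 2 := by
      rw [inner_self_eq_norm_sq_to_K]; norm_cast
    have e2 : (⟪y, y⟫_ℂ).re = ‖y‖ ^ 2 := by
      rw [inner_self_eq_norm_sq_to_K]; norm_cast
    rw [e1, e2] at h0
    linarith
  · exact ((g.continuous.comp Complex.continuous_conj).continuousOn).mul (c3 x y)
  · exact Complex.continuous_re.comp_continuousOn (c3 x x)
  · exact Complex.continuous_re.comp_continuousOn (c3 y y)
  · exact continuousOn_const.mul ((Complex.continuous_re.comp_continuousOn (c3 x x)).add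
      (Complex.continuous_re.comp_continuousOn (c3 y y)))
  · exact Complex.continuous_re.comp_continuousOn
      (((g.continuous.comp Complex.continuous_conj).continuousOn).mul (c3 x y))

lemma av_zero_poly (g : ℂ[X]) (M : ℝ) (n : ℕ) (w : ℂ → ℝ) (h : Pos M g n w) (hn : 0 < n)
    (hw : 0 < av w) : 0 ≤ M := by
  have h1 := h 0 1 (by rw [degree_zero]; exact WithBot.bot_lt_coe n)
    (by rw [degree_one]; exact_mod_cast hn)
  have h2 : (fun z => w z * (M / 2 * (‖(0 : ℂ[X]).eval z‖ ^ 2 + ‖(1 : ℂ[X]).eval z‖ ^ 2)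
      - (g.eval (conj z) * (conj ((0 : ℂ[X]).eval z) * (1 : ℂ[X]).eval z)).re))
      = fun z => M / 2 * w z := by
    ext z; simp; ring
  rw [h2, av_real_const_mul] at h1
  by_contra hM
  push Not at hM
  nlinarith

end Pool.Agent.Lib.MP_a1a577_an
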