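import Pool.Agent.Lib.MP_a1a577_an.Model

set_option autoImplicit false

namespace Pool.Agent.Lib.MP_a1a577_an

open Complex Metric Polynomial
open scoped ComplexConjugate InnerProductSpace

lemma infinite_unit_sphere : (sphere (0 : ℂ) 1).Infinite := by
  apply IsPreconnected.infinite_of_nontrivial
  · apply isPreconnected_sphere
    rw [Complex.rank_real_complex]; norm_num
  · refine ⟨1, by simp, -1, by simp, ?_⟩
    intro h
    have := congrArg Complex.re h
    norm_num at this

lemma av_norm_sq_pos {s : Multiset ℂ} (hs : ∀ b ∈ s, ‖b‖ < 1) {q : ℂ[X]} (hq : q ≠ 0) :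
    0 < av (fun z => wt s z * ‖q.eval z‖ ^ 2) := by
  unfold av Real.circleAverage
  rw [smul_eq_mul]
  apply mul_pos (by positivity)
  apply intervalIntegral.integral_pos Real.two_pi_pos
  · apply Continuous.continuousOn
    have h1 : ContinuousOn (fun z => wt s z * ‖q.eval z‖ ^ 2) (sphere 0 1) :=
      (continuousOn_wt hs).mul ((q.continuous.norm.pow 2).continuousOn)
    exact h1.comp_continuous (continuous_circleMap 0 1) (fun θ => circleMap_mem_sphere 0 zero_le_one θ)
  · intro θ _
    have : ‖circleMap 0 1 θ‖ = 1 := by simp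
    have := wt_pos hs this.le
    positivity
  · by_contra hcon
    push Not at hcon
    apply hq
    apply Polynomial.eq_zero_of_infinite_isRoot
    apply infinite_unit_sphere.mono
    intro z hz
    have hz1 : ‖z‖ = 1 := by simpa using hz
    obtain ⟨θ, hθ, hθz⟩ : ∃ θ ∈ Set.Icc 0 (2 * Real.pi), circleMap 0 1 θ = z := by
      have := image_circleMap_Ioc (0 : ℂ) 1
      have hz' : z ∈ sphere (0:ℂ) |1| := by simpa using hz1
      rw [← this] at hz'
      obtain ⟨θ, hθ, h⟩ := hz'
      exact ⟨θ, Set.Ioc_subset_Icc_self hθ, h⟩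
    have h2 := hcon θ hθ
    rw [hθz] at h2
    have h3 := wt_pos hs hz1.le
    have h4 : ‖q.eval z‖ ^ 2 = 0 := by
      apply le_antisymm _ (by positivity)
      by_contra h5
      push Not at h5
      have := mul_pos h3 h5
      linarith
    simpa using h4

lemma continuousOn_integrand {s : Multiset ℂ} (hs : ∀ b ∈ s, ‖b‖ < 1) (g : ℂ[X]) (p q : ℂ[X]) :
    ContinuousOn (fun z => (wt s z : ℂ) * (g.eval (conj z) * (conj (p.eval z) * q.eval z)))
      (sphere 0 1) := by
  apply (Complex.continuous_ofReal.comp_continuousOn (continuousOn_wt hs)).mul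
  apply Continuous.continuousOn
  exact (g.continuous.comp Complex.continuous_conj).mul
    ((Complex.continuous_conj.comp p.continuous).mul q.continuous)

/-- The weighted sesquilinear form with a multiplier. -/
noncomputable def form (s : Multiset ℂ) (g p q : ℂ[X]) : ℂ :=
  av (fun z => (wt s z : ℂ) * (g.eval (conj z) * (conj (p.eval z) * q.eval z)))

lemma form_conj {s : Multiset ℂ} (hs : ∀ b ∈ s, ‖b‖ < 1) (p q : ℂ[X]) :
    conj (form s 1 q p) = form s 1 p q := by
  unfold form
  rw [← av_conj (continuousOn_integrand hs 1 q p)]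
  congr 1
  ext z
  simp only [map_mul, eval_one, Complex.conj_conj, one_mul, Complex.conj_ofReal]
  ring

lemma form_add_left {s : Multiset ℂ} (hs : ∀ b ∈ s, ‖b‖ < 1) (g p p' q : ℂ[X]) :
    form s g (p + p') q = form s g p q + form s g p' q := by
  unfold form
  rw [← av_add (continuousOn_integrand hs g p q) (continuousOn_integrand hs g p' q)]
  congr 1
  ext z
  simp only [eval_add, map_add]
  ring

lemma form_add_right {s : Multiset ℂ} (hs : ∀ b ∈ s, ‖b‖ < 1) (g p q q' : ℂ[X]) :
    form s g p (q + q') = form s g p q + form s g p q' := by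
  unfold form
  rw [← av_add (continuousOn_integrand hs g p q) (continuousOn_integrand hs g p q')]
  congr 1
  ext z
  simp only [eval_add]
  ring

lemma form_add_mult {s : Multiset ℂ} (hs : ∀ b ∈ s, ‖b‖ < 1) (g g' p q : ℂ[X]) :
    form s (g + g') p q = form s g p q + form s g' p q := by
  unfold form
  rw [← av_add (continuousOn_integrand hs g p q) (continuousOn_integrand hs g' p q)]
  congr 1
  ext z
  simp only [eval_add]
  ring

lemma form_smul_left (s : Multiset ℂ) (g p q : ℂ[X]) (r : ℂ) :
    form s g (r • p) q = conj r * form s g p q := by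
  unfold form
  rw [← av_const_mul]
  congr 1
  ext z
  simp only [eval_smul, smul_eq_mul, map_mul]
  ring

lemma form_smul_right (s : Multiset ℂ) (g p q : ℂ[X]) (r : ℂ) :
    form s g p (r • q) = r * form s g p q := by
  unfold form
  rw [← av_const_mul]
  congr 1
  ext z
  simp only [eval_smul, smul_eq_mul]
  ring

lemma form_C_mult (s : Multiset ℂ) (g p q : ℂ[X]) (r : ℂ) :
    form s (C r * g) p q = r * form s g p q := by
  unfold form
  rw [← av_const_mul]
  congr 1
  ext z
  simp only [eval_mul, eval_C]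
  ring

lemma form_self {s : Multiset ℂ} (hs : ∀ b ∈ s, ‖b‖ < 1) (p : ℂ[X]) :
    form s 1 p p = ((av (fun z => wt s z * ‖p.eval z‖ ^ 2) : ℝ) : ℂ) := by
  have h1 : ContinuousOn (fun z => wt s z * ‖p.eval z‖ ^ 2) (sphere 0 1) :=
      (continuousOn_wt hs).mul ((p.continuous.norm.pow 2).continuousOn)
  have h2 := Complex.ofRealCLM.circleAverage_comp_comm (ci h1)
  unfold form
  have h3 : (((av (fun z => wt s z * ‖p.eval z‖ ^ 2) : ℝ) : ℂ)) =
    Complex.ofRealCLM (Real.circleAverage (fun z => wt s z * ‖p.eval z‖ ^ 2) 0 1) := rfl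
  rw [h3, ← h2]
  unfold av
  congr 1
  ext z
  simp only [eval_one, one_mul, Function.comp_apply, Complex.ofRealCLM_apply]
  rw [← Complex.normSq_eq_conj_mul_self, Complex.normSq_eq_norm_sq]
  push_cast
  ring

/-- Polynomials of degree `< n` with the inner product weighted by `wt s`. -/
theorem exists_model (n : ℕ) {s : Multiset ℂ} (hs : ∀ b ∈ s, ‖b‖ < 1) :
    ∃ (E : Type) (_ : NormedAddCommGroup E) (_ : InnerProductSpace ℂ E)
      (φ : E ≃ₗ[ℂ] (degreeLT ℂ n)),
      ∀ v w : E, ⟪v, w⟫_ℂ = form s 1 (φ v : ℂ[X]) (φ w : ℂ[X]) := by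
  let core : InnerProductSpace.Core ℂ (degreeLT ℂ n) :=
    { inner := fun v w => form s 1 (v : ℂ[X]) (w : ℂ[X])
      conj_inner_symm := fun v w => form_conj hs _ _
      re_inner_nonneg := fun v => by
        rw [form_self hs]
        simp only [RCLike.re_to_complex, Complex.ofReal_re]
        apply av_nonneg
        intro z hz
        have := wt_pos hs hz.le
        positivity
      add_left := fun u v w => by
        simp only [Submodule.coe_add]
        exact form_add_left hs _ _ _ _
      smul_left := fun u v r => by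
        simp only [Submodule.coe_smul]
        exact form_smul_left _ _ _ _ _
      definite := fun v hv => by
        rw [form_self hs] at hv
        by_contra hne
        have h1 : (v : ℂ[X]) ≠ 0 := fun h => hne (Subtype.ext h)
        have h2 := av_norm_sq_pos hs h1
        rw [Complex.ofReal_eq_zero] at hv
        linarith }
  refine ⟨degreeLT ℂ n, core.toNormedAddCommGroup, InnerProductSpace.ofCore core.toCore, ?_⟩
  exact ⟨LinearEquiv.refl _ _, fun v w => rfl⟩

/-- `∏ (1 - b X)` as a polynomial. -/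
noncomputable def tpP (s : Multiset ℂ) : ℂ[X] := (s.map fun b => 1 - C b * X).prod

lemma tpP_eval (s : Multiset ℂ) (z : ℂ) : (tpP s).eval z = tp s z := by
  induction s using Multiset.induction_on with
  | empty => simp [tpP, tp]
  | cons b s ih =>
    have : tpP (b ::ₘ s) = (1 - C b * X) * tpP s := by simp [tpP]
    rw [this, tp_cons, eval_mul, ih]
    simp

lemma natDegree_tpP_le (s : Multiset ℂ) : (tpP s).natDegree ≤ Multiset.card s := by
  induction s using Multiset.induction_on with
  | empty => simp [tpP]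
  | cons b s ih =>
    have : tpP (b ::ₘ s) = (1 - C b * X) * tpP s := by simp [tpP]
    rw [this, Multiset.card_cons]
    have h1 : (1 - C b * X : ℂ[X]).natDegree ≤ 1 := by compute_degree
    calc ((1 - C b * X) * tpP s).natDegree ≤ (1 - C b * X : ℂ[X]).natDegree + (tpP s).natDegree :=
          natDegree_mul_le
      _ ≤ Multiset.card s + 1 := by omega

/-- The compressed backward shift on polynomials of degree `< n`. -/
noncomputable def shiftPoly (s : Multiset ℂ) (n : ℕ) (hn : Multiset.card s = n) :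
    degreeLT ℂ n →ₗ[ℂ] degreeLT ℂ n where
  toFun q := ⟨divX ((q : ℂ[X]) - C ((q : ℂ[X]).coeff 0) * tpP s), by
    rw [mem_degreeLT, degree_lt_iff_coeff_zero]
    intro k hk
    rw [coeff_divX, coeff_sub, coeff_C_mul]
    have h1 : (q : ℂ[X]).coeff (k+1) = 0 := by
      have := mem_degreeLT.mp q.2
      rw [degree_lt_iff_coeff_zero] at this
      exact this (k+1) (by omega)
    have h2 : (tpP s).coeff (k+1) = 0 := by
      apply coeff_eq_zero_of_natDegree_lt
      have := natDegree_tpP_le s
      omega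
    rw [h1, h2]; simp⟩
  map_add' p q := by
    apply Subtype.ext
    ext k
    simp only [Submodule.coe_add, coeff_divX, coeff_sub, coeff_add, coeff_C_mul]
    ring
  map_smul' r q := by
    apply Subtype.ext
    ext k
    simp only [Submodule.coe_smul, coeff_divX, coeff_sub, coeff_smul, coeff_C_mul, smul_eq_mul,
      RingHom.id_apply]
    ring

lemma shiftPoly_eval (s : Multiset ℂ) (n : ℕ) (hn : Multiset.card s = n) (q : degreeLT ℂ n)
    (z : ℂ) : z * ((shiftPoly s n hn q : degreeLT ℂ n) : ℂ[X]).eval z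
      = (q : ℂ[X]).eval z - (q : ℂ[X]).eval 0 * tp s z := by
  have h := X_mul_divX_add ((q : ℂ[X]) - C ((q : ℂ[X]).coeff 0) * tpP s)
  have h0 : ((q : ℂ[X]) - C ((q : ℂ[X]).coeff 0) * tpP s).coeff 0 = 0 := by
    rw [coeff_sub, coeff_C_mul, coeff_zero_eq_eval_zero (tpP s), tpP_eval, tp_at_zero]
    ring
  rw [h0, C_0, add_zero] at h
  have h2 := congrArg (eval z) h
  rw [eval_mul, eval_X, eval_sub, eval_mul, eval_C, tpP_eval] at h2
  rw [← coeff_zero_eq_eval_zero]
  exact h2

lemma conj_eval_conj (g : ℂ[X]) (z : ℂ) :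
    conj ((g.map (starRingEnd ℂ)).eval z) = g.eval (conj z) := by
  have h := eval₂_at_apply (p := g) (starRingEnd ℂ) (conj z)
  rw [Complex.conj_conj, ← eval_map] at h
  rw [h, Complex.conj_conj]

lemma dcc_div_tp {s : Multiset ℂ} (hs : ∀ b ∈ s, ‖b‖ < 1) (p : ℂ[X]) :
    DiffContOnCl ℂ (fun z => p.eval z / tp s z) (ball 0 1) := by
  have h2 : DifferentiableOn ℂ (fun z => p.eval z / tp s z) {z | tp s z ≠ 0} := by
    intro z hz
    exact (p.differentiable.differentiableAt.div ((differentiable_tp s) z) hz).differentiableWithinAt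
  exact h2.diffContOnCl_ball (fun z hz => tp_ne_zero hs (by simpa using hz))

lemma ofReal_wt_mul {s : Multiset ℂ} (hs : ∀ b ∈ s, ‖b‖ < 1) {z : ℂ} (hz : ‖z‖ = 1) :
    (wt s z : ℂ) * tp s z = (conj (tp s z))⁻¹ := by
  have h0 := tp_ne_zero hs hz.le
  have h1 : conj (tp s z) ≠ 0 := by simpa using h0
  unfold wt
  rw [← Complex.normSq_eq_norm_sq, Complex.ofReal_inv, Complex.normSq_eq_conj_mul_self]
  field_simp

lemma form_shift {s : Multiset ℂ} (hs : ∀ b ∈ s, ‖b‖ < 1) (n : ℕ) (hn : Multiset.card s = n)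
    (g p : ℂ[X]) (q : degreeLT ℂ n) :
    form s g p (shiftPoly s n hn q : degreeLT ℂ n) = form s (g * X) p q := by
  unfold form
  have hF : DiffContOnCl ℂ (fun z : ℂ => (X * g.map (starRingEnd ℂ)).eval z * (p.eval z / tp s z))
      (ball 0 1) := dcc_mul (F := fun z => (X * g.map (starRingEnd ℂ)).eval z)
        (X * g.map (starRingEnd ℂ)).differentiable.diffContOnCl (dcc_div_tp hs p)
  have h1 : ∀ z, ‖z‖ = 1 → (wt s z : ℂ) * (g.eval (conj z) *
        (conj (p.eval z) * ((shiftPoly s n hn q : degreeLT ℂ n) : ℂ[X]).eval z))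
      = (wt s z : ℂ) * ((g * X).eval (conj z) * (conj (p.eval z) * (q : ℂ[X]).eval z))
        - (q : ℂ[X]).eval 0 *
          conj ((X * g.map (starRingEnd ℂ)).eval z * (p.eval z / tp s z)) := by
    intro z hz
    have h2 := shiftPoly_eval s n hn q z
    have h3 := conj_mul_self hz
    have h4 : ((shiftPoly s n hn q : degreeLT ℂ n) : ℂ[X]).eval z
        = conj z * ((q : ℂ[X]).eval z - (q : ℂ[X]).eval 0 * tp s z) := by
      rw [← h2]
      linear_combination (-((shiftPoly s n hn q : degreeLT ℂ n) : ℂ[X]).eval z) * h3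
    have h5 := ofReal_wt_mul hs hz
    have h6 : conj ((X * g.map (starRingEnd ℂ)).eval z * (p.eval z / tp s z))
        = conj z * g.eval (conj z) * (conj (p.eval z) * ((wt s z : ℂ) * tp s z)) := by
      rw [h5, map_mul, map_div₀, eval_mul, eval_X, map_mul, conj_eval_conj, div_eq_mul_inv]
    rw [h4, h6, eval_mul, eval_X]
    ring
  rw [av_congr h1, av_sub, av_const_mul, av_conj (sphere_sub hF), av_analytic hF]
  · simp
  · exact continuousOn_integrand hs (g * X) p q
  · exact continuousOn_const.mul (Complex.continuous_conj.comp_continuousOn (sphere_sub hF))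

lemma form_shift_pow {s : Multiset ℂ} (hs : ∀ b ∈ s, ‖b‖ < 1) (n : ℕ) (hn : Multiset.card s = n)
    (p : ℂ[X]) (k : ℕ) : ∀ (q : degreeLT ℂ n),
    form s 1 p (((shiftPoly s n hn) ^ k) q : degreeLT ℂ n) = form s (X ^ k) p q := by
  induction k with
  | zero => intro q; simp
  | succ k ih =>
    intro q
    rw [pow_succ, Module.End.mul_apply, ih, form_shift hs, pow_succ]

lemma form_aeval {s : Multiset ℂ} (hs : ∀ b ∈ s, ‖b‖ < 1) (n : ℕ) (hn : Multiset.card s = n)
    (p g : ℂ[X]) (q : degreeLT ℂ n) :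
    form s 1 p ((aeval (shiftPoly s n hn) g) q : degreeLT ℂ n) = form s g p q := by
  induction g using Polynomial.induction_on' with
  | add g g' hg hg' =>
    rw [map_add, LinearMap.add_apply, Submodule.coe_add, form_add_right hs, hg, hg',
      form_add_mult hs]
  | monomial k a =>
    rw [aeval_monomial, Module.End.mul_apply, Module.algebraMap_end_apply, Submodule.coe_smul,
      form_smul_right, form_shift_pow hs, ← form_C_mult, C_mul_X_pow_eq_monomial]

/-- Contractivity of the shift. -/
lemma form_shift_le {s : Multiset ℂ} (hs : ∀ b ∈ s, ‖b‖ < 1) (n : ℕ) (hn : Multiset.card s = n)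
    (q : degreeLT ℂ n) :
    av (fun z => wt s z * ‖((shiftPoly s n hn q : degreeLT ℂ n) : ℂ[X]).eval z‖ ^ 2)
      ≤ av (fun z => wt s z * ‖(q : ℂ[X]).eval z‖ ^ 2) := by
  set q0 := (q : ℂ[X]).eval 0 with hq0
  have hF : DiffContOnCl ℂ (fun z : ℂ => (q : ℂ[X]).eval z / tp s z) (ball 0 1) := dcc_div_tp hs _
  have hF' : DiffContOnCl ℂ (fun z : ℂ => (C (conj q0)).eval z * ((q : ℂ[X]).eval z / tp s z))
      (ball 0 1) := dcc_mul (F := fun z => (C (conj q0)).eval z)
        (C (conj q0)).differentiable.diffContOnCl hF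
  have hc : ContinuousOn (fun z => wt s z * ‖(q : ℂ[X]).eval z‖ ^ 2) (sphere 0 1) :=
    (continuousOn_wt hs).mul (((q : ℂ[X]).continuous.norm.pow 2).continuousOn)
  have h1 : ∀ z, ‖z‖ = 1 → wt s z * ‖((shiftPoly s n hn q : degreeLT ℂ n) : ℂ[X]).eval z‖ ^ 2
      = wt s z * ‖(q : ℂ[X]).eval z‖ ^ 2
        - (2 * ((C (conj q0)).eval z * ((q : ℂ[X]).eval z / tp s z)).re - ‖q0‖ ^ 2) := by
    intro z hz
    have h2 := shiftPoly_eval s n hn q z
    have h0 := tp_ne_zero hs hz.le
    have hw : wt s z = ‖(tp s z)⁻¹‖ ^ 2 := by unfold wt; rw [norm_inv, inv_pow]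
    have h3 : ‖((shiftPoly s n hn q : degreeLT ℂ n) : ℂ[X]).eval z‖
        = ‖(q : ℂ[X]).eval z - q0 * tp s z‖ := by
      rw [hq0, ← h2, norm_mul, hz, one_mul]
    rw [h3, hw, ← mul_pow, ← norm_mul, ← mul_pow, ← norm_mul]
    have h4 : (tp s z)⁻¹ * ((q : ℂ[X]).eval z - q0 * tp s z) = (q : ℂ[X]).eval z / tp s z - q0 := by
      field_simp
    have h5 : (tp s z)⁻¹ * (q : ℂ[X]).eval z = (q : ℂ[X]).eval z / tp s z := by
      field_simp
    rw [h4, h5, eval_C]
    generalize (q : ℂ[X]).eval z / tp s z = w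
    rw [← Complex.normSq_eq_norm_sq, ← Complex.normSq_eq_norm_sq, ← Complex.normSq_eq_norm_sq,
      Complex.normSq_sub]
    have : (w * conj q0).re = (conj q0 * w).re := by rw [mul_comm]
    rw [this]; ring
  rw [av_congr h1, av_sub, av_sub, av_real_const_mul, av_re (sphere_sub hF'), av_analytic hF']
  · rw [tp_at_zero, eval_C, div_one, ← hq0]
    have h2 : av (fun _ : ℂ => ‖q0‖ ^ 2) = ‖q0‖ ^ 2 := Real.circleAverage_const _ 0 1
    rw [h2, ← Complex.normSq_eq_conj_mul_self, Complex.ofReal_re, Complex.normSq_eq_norm_sq]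
    nlinarith [norm_nonneg q0]
  · exact continuousOn_const.mul (Complex.continuous_re.comp_continuousOn (sphere_sub hF'))
  · exact continuousOn_const
  · exact hc
  · exact (continuousOn_const.mul (Complex.continuous_re.comp_continuousOn (sphere_sub hF'))).sub
      continuousOn_const

lemma form_pp_eq_zero {s : Multiset ℂ} (hs : ∀ b ∈ s, ‖b‖ < 1) (n : ℕ) (hn : Multiset.card s = n)
    (p : ℂ[X]) (q : degreeLT ℂ n) : form s (pp s) p q = 0 := by
  have hq : ∀ z, (q : ℂ[X]).eval z = ∑ i ∈ Finset.range n, (q : ℂ[X]).coeff i * z ^ i := by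
    intro z
    by_cases h0 : n = 0
    · subst h0
      have h1 : (q : ℂ[X]) = 0 := by
        have := mem_degreeLT.mp q.2
        rw [← degree_eq_bot]
        exact Nat.WithBot.lt_zero_iff.mp (by simpa using this)
      rw [h1]; simp
    · apply eval_eq_sum_range'
      have := mem_degreeLT.mp q.2
      by_cases hq0 : (q : ℂ[X]) = 0
      · rw [hq0]; simp; omega
      · exact (natDegree_lt_iff_degree_lt hq0).mpr this
  have hF : ∀ i, DiffContOnCl ℂ (fun z : ℂ => (X ^ (n - i)).eval z * (p.eval z / tp s z))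
      (ball 0 1) := fun i => dcc_mul (F := fun z => (X ^ (n - i)).eval z)
        (X ^ (n - i)).differentiable.diffContOnCl (dcc_div_tp hs p)
  unfold form
  have h1 : ∀ z, ‖z‖ = 1 → (wt s z : ℂ) * ((pp s).eval (conj z) * (conj (p.eval z) * (q : ℂ[X]).eval z))
      = ∑ i ∈ Finset.range n, (q : ℂ[X]).coeff i *
          conj ((X ^ (n - i)).eval z * (p.eval z / tp s z)) := by
    intro z hz
    have h5 := ofReal_wt_mul hs hz
    have h3 := conj_mul_self hz
    rw [pp_eval_conj s hz, hn, hq z, Finset.mul_sum, Finset.mul_sum, Finset.mul_sum]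
    apply Finset.sum_congr rfl
    intro i hi
    have hi' : i < n := Finset.mem_range.mp hi
    have h6 : conj z ^ n = conj z ^ (n - i) * conj z ^ i := by
      rw [← pow_add]; congr 1; omega
    have h7 : conj z ^ i * z ^ i = 1 := by rw [← mul_pow, h3, one_pow]
    rw [map_mul, map_div₀, div_eq_mul_inv, ← h5, eval_pow, eval_X, map_pow, h6]
    linear_combination ((wt s z : ℂ) * tp s z * conj (p.eval z) * (q : ℂ[X]).coeff i * conj z ^ (n - i)) * h7
  rw [av_congr h1, av_sum]
  · apply Finset.sum_eq_zero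
    intro i hi
    have hi' : i < n := Finset.mem_range.mp hi
    rw [av_const_mul, av_conj (sphere_sub (hF i)), av_analytic (hF i)]
    have : (X ^ (n - i) : ℂ[X]).eval 0 = 0 := by
      rw [eval_pow, eval_X, zero_pow (by omega)]
    rw [this]; simp
  · intro i _
    exact continuousOn_const.mul (Complex.continuous_conj.comp_continuousOn (sphere_sub (hF i)))

end Pool.Agent.Lib.MP_a1a577_an
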